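import Pool.Agent.Results.MP_79ce01_nt.SpectrumDense
import Pool.Agent.H38.ZZ.Below

/-!
# The smallest accumulation point of the spectrum
-/

namespace H38.ZV

open Pool.Agent.Results.MP_79ce01_nt Filter H38.ZZ

theorem S_eq : SpectrumDense.S = Below.S := rfl

/-- every number from `0.25069` on is an accumulation point -/
theorem accPt_Ici (x : ℝ) (hx : 25069 / 100000 ≤ x) : AccPt x (𝓟 Below.S) := by
  rw [accPt_iff_nhds]
  intro U hU
  obtain ⟨ε, hε, hUε⟩ := Metric.mem_nhds_iff.1 hU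
  have h1 : x + ε / 2 ∈ closure SpectrumDense.S := SpectrumDense.result (by
    change 25069 / 100000 ≤ x + ε / 2
    linarith)
  obtain ⟨y, hy, hxy⟩ := Metric.mem_closure_iff.1 h1 (ε / 4) (by positivity)
  rw [Real.dist_eq, abs_lt] at hxy
  refine ⟨y, ⟨hUε ?_, hy⟩, ?_⟩
  · rw [Metric.mem_ball, Real.dist_eq, abs_lt]
    constructor <;> linarith
  · intro h
    rw [h] at hxy
    linarith

/-- **The smallest accumulation point of `S` lies in `[0.2497, 0.25069]`.** -/
theorem least_accPt : ∃ ρ : ℝ, IsLeast {x | AccPt x (𝓟 Below.S)} ρ ∧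
    2497 / 10000 ≤ ρ ∧ ρ ≤ 25069 / 100000 := by
  have hne : {x | AccPt x (𝓟 Below.S)}.Nonempty := ⟨_, accPt_Ici _ le_rfl⟩
  have hbdd : BddBelow {x | AccPt x (𝓟 Below.S)} :=
    ⟨2497 / 10000, fun x hx => Below.accPt_S x hx⟩
  have hcl : IsClosed {x | AccPt x (𝓟 Below.S)} := isClosed_derivedSet Below.S
  refine ⟨sInf {x | AccPt x (𝓟 Below.S)}, ⟨hcl.csInf_mem hne hbdd, fun y hy =>
    csInf_le hbdd hy⟩, le_csInf hne fun y hy => Below.accPt_S y hy,
    csInf_le hbdd (accPt_Ici _ le_rfl)⟩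

/-- `σ ≤ 0.25069` -/
theorem sigma_le : sInf (Below.S \ {Below.s₀}) ≤ 25069 / 100000 := by
  refine le_of_forall_pos_lt_add fun ε hε => ?_
  have h1 : (25069 / 100000 : ℝ) + ε / 2 ∈ closure SpectrumDense.S := SpectrumDense.result (by
    change (25069 / 100000 : ℝ) ≤ 25069 / 100000 + ε / 2
    linarith)
  obtain ⟨y, hy, hxy⟩ := Metric.mem_closure_iff.1 h1 (ε / 4) (by positivity)
  rw [Real.dist_eq, abs_lt] at hxy
  refine lt_of_le_of_lt (csInf_le ⟨0, fun t ht => ht.1.1.le⟩ (show y ∈ _ from ⟨hy, ?_⟩)) (by linarith)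
  intro h
  have h2 : y = Below.s₀ := h
  have h3 : Below.s₀ < 2497 / 10000 := by
    unfold Below.s₀
    have h1 : Real.sqrt 5 < 9 / 4 := by
      rw [Real.sqrt_lt' (by norm_num)]; norm_num
    have h2 : Real.log ((1 + Real.sqrt 5) / 2) < Real.log ((13 / 8 : ℝ)) :=
      Real.log_lt_log (by positivity) (by linarith)
    have h3 : Real.log ((13 / 8 : ℝ)) < 4994 / 10000 := by
      have h4 : Real.log ((13 / 8 : ℝ) ^ 10) < Real.log ((2 : ℝ) ^ (7 : ℕ) * (101 / 100)) := by
        apply Real.log_lt_log (by norm_num)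
        norm_num
      rw [Real.log_pow, Real.log_mul (by norm_num) (by norm_num), Real.log_pow] at h4
      have h5 : Real.log ((101 / 100 : ℝ)) ≤ 101 / 100 - 1 :=
        Real.log_le_sub_one_of_pos (by norm_num)
      have h6 := Real.log_two_lt_d9
      push_cast at h4
      linarith
    linarith
  linarith

/-- infinitely many values in `(0.2497, 0.2507]` -/
theorem infinite_values : (Below.S ∩ Set.Ioc (2497 / 10000) (2507 / 10000)).Infinite := by
  have h1 : AccPt (250695 / 1000000 : ℝ) (𝓟 Below.S) := accPt_Ici _ (by norm_num)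
  have h2 : AccPt (250695 / 1000000 : ℝ) (𝓟 (Set.Ioo (2497 / 10000) (2507 / 10000) ∩ Below.S)) :=
    h1.nhds_inter (Ioo_mem_nhds (by norm_num) (by norm_num))
  refine (Set.Infinite.of_accPt h2).mono ?_
  rintro x ⟨hx, hxS⟩
  exact ⟨hxS, hx.1, hx.2.le⟩

/-- infinitely many algebraic numbers with height in `(0.2497, 0.2507]` -/
theorem infinite_numbers : {α : ℂ | IsAlgebraic ℚ α ∧ 2497 / 10000 < zzHeight α ∧
    zzHeight α ≤ 2507 / 10000}.Infinite := by
  intro hfin
  refine infinite_values ((hfin.image zzHeight).subset ?_)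
  rintro x ⟨⟨_, α, hα, rfl⟩, h1, h2⟩
  exact ⟨α, ⟨hα, h1, h2⟩, rfl⟩

end H38.ZV
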