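import Mathlib

/-!
# Uniform integrability of `log |z - ζ|` on the unit circle
-/

open MeasureTheory Set Polynomial
open scoped Real

namespace H38.ZV

/-- `|log |e ^ (iθ) - 1||` -/
noncomputable def hh (θ : ℝ) : ℝ := |Real.log ‖circleMap 0 1 θ - 1‖|

theorem hh_meas : Measurable hh := by
  unfold hh
  exact (Real.measurable_log.comp ((continuous_circleMap 0 1).sub continuous_const).norm.measurable).abs

theorem hh_int : IntegrableOn hh (Icc (-(2 * π)) (2 * π)) volume := by
  have h1 := (X - C (1 : ℂ)).intervalIntegrable_mahlerMeasure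
  have h2 : IntervalIntegrable (fun x => Real.log ‖circleMap 0 1 x - 1‖) volume 0 (2 * π) := by
    simpa using h1
  have hper : Function.Periodic (fun x => Real.log ‖circleMap 0 1 x - 1‖) (2 * π) := by
    intro x
    simp only
    rw [periodic_circleMap 0 1 x]
  have h3 : IntervalIntegrable (fun x => Real.log ‖circleMap 0 1 x - 1‖) volume (-(2 * π)) (2 * π) :=
    hper.intervalIntegrable (by positivity) (t := 0) (by simpa using h2) _ _
  rw [intervalIntegrable_iff_integrableOn_Icc_of_le (by linarith [Real.pi_pos])] at h3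
  exact h3.abs

theorem hh_shift (τ : ℝ) (S : Set ℝ) (hS : MeasurableSet S) :
    ∫⁻ θ in S, ENNReal.ofReal (hh (θ - τ)) = ∫⁻ x in (fun x => x + τ) ⁻¹' S, ENNReal.ofReal (hh x) := by
  have hA : MeasurableSet ((fun x : ℝ => x + τ) ⁻¹' S) := (measurable_add_const τ) hS
  rw [← lintegral_indicator hS, ← lintegral_indicator hA,
    ← lintegral_add_right_eq_self (μ := volume) _ τ]
  refine lintegral_congr fun x => ?_
  simp only [indicator, add_sub_cancel_right]
  rfl

theorem unif (ε : ℝ) (hε : 0 < ε) : ∃ δ : ℝ, 0 < δ ∧ ∀ S : Set ℝ, MeasurableSet S →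
    S ⊆ Icc 0 (2 * π) → volume S < ENNReal.ofReal δ → ∀ τ ∈ Icc 0 (2 * π),
    IntegrableOn (fun θ => hh (θ - τ)) S ∧ ∫ θ in S, hh (θ - τ) ≤ ε := by
  have hfin := hh_int.lintegral_lt_top.ne
  obtain ⟨δ', hδ0, hδ⟩ := exists_pos_setLIntegral_lt_of_measure_lt hfin
    (ε := ENNReal.ofReal ε) (by rw [Ne, ENNReal.ofReal_eq_zero]; linarith)
  have hm : min δ' 1 ≠ ⊤ := ne_top_of_le_ne_top ENNReal.one_ne_top (min_le_right _ _)
  have hm0 : 0 < min δ' 1 := lt_min hδ0 one_pos
  refine ⟨(min δ' 1).toReal, ENNReal.toReal_pos hm0.ne' hm, fun S hS hSI hSv τ hτ => ?_⟩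
  rw [ENNReal.ofReal_toReal hm] at hSv
  set A : Set ℝ := (fun x : ℝ => x + τ) ⁻¹' S with hAdef
  have hAm : MeasurableSet A := (measurable_add_const τ) hS
  have hAv : volume A = volume S := measure_preimage_add_right volume τ S
  have hAI : A ⊆ Icc (-(2 * π)) (2 * π) := by
    intro x hx
    have h1 := hSI hx
    simp only [mem_Icc] at h1 hτ ⊢
    constructor <;> linarith
  have h1 : (volume.restrict (Icc (-(2 * π)) (2 * π))) A < δ' := by
    refine lt_of_le_of_lt (Measure.restrict_apply_le _ _) ?_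
    rw [hAv]
    exact lt_of_lt_of_le hSv (min_le_left _ _)
  have h2 := hδ A h1
  rw [Measure.restrict_restrict hAm, inter_eq_left.2 hAI, ← hh_shift τ S hS] at h2
  have hmeas : Measurable (fun θ => hh (θ - τ)) := hh_meas.comp (measurable_sub_const τ)
  have hnn : ∀ θ, 0 ≤ hh (θ - τ) := fun θ => abs_nonneg _
  have hint : IntegrableOn (fun θ => hh (θ - τ)) S := by
    refine ⟨hmeas.aestronglyMeasurable, ?_⟩
    rw [hasFiniteIntegral_iff_ofReal (Filter.Eventually.of_forall hnn)]
    exact lt_of_lt_of_le h2 le_top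
  refine ⟨hint, ?_⟩
  rw [integral_eq_lintegral_of_nonneg_ae (Filter.Eventually.of_forall hnn)
    hmeas.aestronglyMeasurable]
  exact ENNReal.toReal_le_of_le_ofReal hε.le h2.le

theorem norm_circle (θ : ℝ) : ‖circleMap 0 1 θ‖ = 1 := by simp

theorem circle_sub (θ τ : ℝ) : ‖circleMap 0 1 θ - circleMap 0 1 τ‖ = ‖circleMap 0 1 (θ - τ) - 1‖ := by
  have h : circleMap 0 1 θ - circleMap 0 1 τ = circleMap 0 1 τ * (circleMap 0 1 (θ - τ) - 1) := by
    rw [mul_sub, mul_one]
    congr 1
    simp only [circleMap_zero, Complex.ofReal_one, one_mul]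
    rw [← Complex.exp_add]
    congr 1
    push_cast
    ring
  rw [h, norm_mul, norm_circle, one_mul]

theorem root_lb (ζ : ℂ) : ∃ τ ∈ Icc 0 (2 * π), ∀ θ : ℝ, circleMap 0 1 θ ≠ circleMap 0 1 τ →
    -hh (θ - τ) - Real.log 2 ≤ Real.log ‖circleMap 0 1 θ - ζ‖ := by
  rcases eq_or_ne ζ 0 with rfl | hζ
  · refine ⟨0, ⟨le_rfl, by positivity⟩, fun θ _ => ?_⟩
    rw [sub_zero (circleMap 0 1 θ), norm_circle, Real.log_one]
    have h1 : 0 ≤ hh (θ - 0) := abs_nonneg _
    have h2 := Real.log_pos (by norm_num : (1 : ℝ) < 2)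
    linarith
  · obtain ⟨τ, hτ, hτ2⟩ : ∃ τ ∈ Icc 0 (2 * π), ζ = ‖ζ‖ * circleMap 0 1 τ := by
      have h1 := Complex.norm_mul_exp_arg_mul_I ζ
      rcases lt_or_ge (Complex.arg ζ) 0 with h | h
      · refine ⟨Complex.arg ζ + 2 * π, ⟨?_, ?_⟩, ?_⟩
        · have := Complex.neg_pi_lt_arg ζ
          linarith [Real.pi_pos]
        · linarith
        · rw [periodic_circleMap 0 1 (Complex.arg ζ)]
          simp only [circleMap_zero, Complex.ofReal_one, one_mul]
          exact h1.symm
      · refine ⟨Complex.arg ζ, ⟨h, ?_⟩, ?_⟩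
        · have := Complex.arg_le_pi ζ
          linarith [Real.pi_pos]
        · simp only [circleMap_zero, Complex.ofReal_one, one_mul]
          exact h1.symm
    refine ⟨τ, hτ, fun θ hne => ?_⟩
    have h1 : ‖circleMap 0 1 θ - circleMap 0 1 τ‖ ≤ 2 * ‖circleMap 0 1 θ - ζ‖ := by
      have e1 : circleMap 0 1 θ - circleMap 0 1 τ =
          (circleMap 0 1 θ - ζ) + (((‖ζ‖ - 1 : ℝ)) : ℂ) * circleMap 0 1 τ := by
        conv_rhs => rw [hτ2]
        have : ‖((‖ζ‖ : ℝ) : ℂ) * circleMap 0 1 τ‖ = ‖ζ‖ := by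
          rw [norm_mul, norm_circle, mul_one]; simp
        rw [this]
        push_cast
        ring
      have e2 : ‖(((‖ζ‖ - 1 : ℝ)) : ℂ) * circleMap 0 1 τ‖ ≤ ‖circleMap 0 1 θ - ζ‖ := by
        rw [norm_mul, norm_circle, mul_one, Complex.norm_real, Real.norm_eq_abs, abs_sub_comm]
        have := abs_norm_sub_norm_le (circleMap 0 1 θ) ζ
        rwa [norm_circle] at this
      rw [e1]
      refine (norm_add_le _ _).trans ?_
      linarith
    have h2 : 0 < ‖circleMap 0 1 θ - circleMap 0 1 τ‖ := norm_pos_iff.2 (sub_ne_zero.2 hne)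
    have h3 : Real.log ‖circleMap 0 1 θ - circleMap 0 1 τ‖ ≤
        Real.log (2 * ‖circleMap 0 1 θ - ζ‖) := Real.log_le_log h2 h1
    rw [Real.log_mul two_ne_zero (by intro h; rw [h] at h1; linarith), circle_sub] at h3
    have h4 : -hh (θ - τ) ≤ Real.log ‖circleMap 0 1 (θ - τ) - 1‖ := neg_abs_le _
    linarith

/-- the integral of `log |p|` over a set -/
noncomputable def JJ (S : Set ℝ) (p : ℂ[X]) : ℝ := ∫ θ in S, Real.log ‖p.eval (circleMap 0 1 θ)‖

theorem log_intOn {S : Set ℝ} (hSI : S ⊆ Icc 0 (2 * π)) (p : ℂ[X]) :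
    IntegrableOn (fun θ => Real.log ‖p.eval (circleMap 0 1 θ)‖) S := by
  have h := p.intervalIntegrable_mahlerMeasure
  rw [intervalIntegrable_iff_integrableOn_Icc_of_le (by positivity)] at h
  exact h.mono_set hSI

theorem eval_ae {p : ℂ[X]} (hp : p ≠ 0) : ∀ᵐ θ : ℝ, p.eval (circleMap 0 1 θ) ≠ 0 := by
  have hfin : {z : ℂ | p.eval z = 0}.Countable := by
    have : {z : ℂ | p.eval z = 0} ⊆ (p.roots.toFinset : Set ℂ) := by
      intro z hz
      rw [Finset.mem_coe, Multiset.mem_toFinset, mem_roots hp]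
      exact hz
    exact (Finset.countable_toSet _).mono this
  have h := hfin.preimage_circleMap 0 one_ne_zero
  have h2 := h.ae_notMem (μ := volume)
  filter_upwards [h2] with θ hθ
  exact hθ

theorem JJ_mul {S : Set ℝ} (hSI : S ⊆ Icc 0 (2 * π)) {p q : ℂ[X]} (hp : p ≠ 0) (hq : q ≠ 0) :
    JJ S (p * q) = JJ S p + JJ S q := by
  unfold JJ
  rw [← integral_add (log_intOn hSI p) (log_intOn hSI q)]
  refine integral_congr_ae ?_
  filter_upwards [ae_restrict_of_ae (eval_ae hp), ae_restrict_of_ae (eval_ae hq)] with θ h1 h2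
  rw [eval_mul, norm_mul, Real.log_mul (norm_ne_zero_iff.2 h1) (norm_ne_zero_iff.2 h2)]

/-- **Uniform integrability.** -/
theorem unif_poly (ε : ℝ) (hε : 0 < ε) : ∃ δ : ℝ, 0 < δ ∧ ∀ S : Set ℝ, MeasurableSet S →
    S ⊆ Icc 0 (2 * π) → volume S < ENNReal.ofReal δ → ∀ p : ℂ[X], 1 ≤ ‖p.leadingCoeff‖ →
    -(ε * p.natDegree) ≤ JJ S p := by
  obtain ⟨δ1, hδ1, h1⟩ := unif (ε / 2) (by positivity)
  have hl2 : 0 < Real.log 2 := Real.log_pos (by norm_num)
  refine ⟨min δ1 (ε / (2 * Real.log 2)), lt_min hδ1 (by positivity), fun S hS hSI hSv p hp => ?_⟩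
  have hSv1 : volume S < ENNReal.ofReal δ1 :=
    lt_of_lt_of_le hSv (ENNReal.ofReal_le_ofReal (min_le_left _ _))
  have hSv2 : volume.real S ≤ ε / (2 * Real.log 2) := by
    refine ENNReal.toReal_le_of_le_ofReal (by positivity) ?_
    exact hSv.le.trans (ENNReal.ofReal_le_ofReal (min_le_right _ _))
  have hSfin : volume S ≠ ⊤ := (lt_of_lt_of_le hSv le_top).ne
  -- one root
  have hone : ∀ ζ : ℂ, -ε ≤ JJ S (X - C ζ) := by
    intro ζ
    obtain ⟨τ, hτ, hlb⟩ := root_lb ζ
    obtain ⟨hi, hi2⟩ := h1 S hS hSI hSv1 τ hτ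
    have hneg : IntegrableOn (fun θ => -hh (θ - τ)) S := hi.neg
    have hne : ∀ᵐ θ : ℝ, circleMap 0 1 θ ≠ circleMap 0 1 τ := by
      have h := (countable_singleton (circleMap 0 1 τ)).preimage_circleMap 0 one_ne_zero
      have h2 := h.ae_notMem (μ := volume)
      filter_upwards [h2] with θ hθ
      exact hθ
    have h2 : ∫ θ in S, (-hh (θ - τ) - Real.log 2) ≤ JJ S (X - C ζ) := by
      unfold JJ
      refine integral_mono_ae ?_ (log_intOn hSI _) ?_
      · exact hneg.sub (integrableOn_const hSfin)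
      · filter_upwards [ae_restrict_of_ae hne] with θ hθ
        have := hlb θ hθ
        simpa using this
    rw [integral_sub hneg (integrableOn_const hSfin), integral_neg, setIntegral_const,
      smul_eq_mul] at h2
    have h3 : volume.real S * Real.log 2 ≤ ε / 2 := by
      have := mul_le_mul_of_nonneg_right hSv2 hl2.le
      have e : ε / (2 * Real.log 2) * Real.log 2 = ε / 2 := by field_simp
      linarith
    linarith
  have hp0 : p ≠ 0 := by
    intro h; rw [h] at hp; simp at hp; linarith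
  have hsplit := IsAlgClosed.splits p
  have hmul : ∀ R : Multiset ℂ, -(ε * R.card) ≤ JJ S ((R.map fun a => X - C a).prod) := by
    intro R
    induction R using Multiset.induction_on with
    | empty =>
      unfold JJ
      simp
    | cons a R ih =>
      have hne : ((R.map fun a => X - C a).prod : ℂ[X]) ≠ 0 := by
        refine Multiset.prod_ne_zero ?_
        rw [Multiset.mem_map]
        rintro ⟨b, _, hb⟩
        exact X_sub_C_ne_zero b hb
      rw [Multiset.map_cons, Multiset.prod_cons, JJ_mul hSI (X_sub_C_ne_zero a) hne,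
        Multiset.card_cons]
      have := hone a
      push_cast
      linarith
  have hc : 0 ≤ JJ S (C p.leadingCoeff) := by
    unfold JJ
    simp only [eval_C]
    exact setIntegral_nonneg hS fun _ _ => Real.log_nonneg hp
  have hR0 : ((p.roots.map fun a => X - C a).prod : ℂ[X]) ≠ 0 := by
    refine Multiset.prod_ne_zero ?_
    rw [Multiset.mem_map]
    rintro ⟨b, _, hb⟩
    exact X_sub_C_ne_zero b hb
  have he := hsplit.eq_prod_roots
  rw [he, JJ_mul hSI (C_ne_zero.2 (leadingCoeff_ne_zero.2 hp0)) hR0]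
  have h4 := hmul p.roots
  have h5 : (C p.leadingCoeff * (p.roots.map fun a => X - C a).prod).natDegree = p.roots.card := by
    rw [← he]
    exact hsplit.natDegree_eq_card_roots
  rw [h5]
  linarith

end H38.ZV
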