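import Pool.Agent.H1.ZU.Def

/-!
# The set of the circle where `|s|` and `|G|` are close to each other is small
-/

open MeasureTheory Set Polynomial Pool.H1.ZU
open scoped Real

namespace H38.ZV

/-- `z ^ (2 k) F(1 / z - 1 / z ^ 2)` -/
noncomputable def tl (k : ℕ) (F : ℝ[X]) : ℂ[X] :=
  ∑ i ∈ Finset.range (k + 1), C ((F.coeff i : ℝ) : ℂ) * (X - 1) ^ i * X ^ (2 * (k - i))

theorem tl_eval {k : ℕ} {F : ℝ[X]} (hF : F.natDegree ≤ k) {z : ℂ} (hz : z ≠ 0) :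
    (tl k F).eval z = z ^ (2 * k) * ev F z⁻¹ := by
  unfold tl ev
  rw [aeval_eq_sum_range' (lt_of_le_of_lt hF (Nat.lt_succ_self k)), eval_finsetSum, Finset.mul_sum]
  refine Finset.sum_congr rfl fun i hi => ?_
  have hik : i ≤ k := Nat.lt_succ_iff.1 (Finset.mem_range.1 hi)
  simp only [eval_mul, eval_C, eval_pow, eval_sub, eval_X, eval_one]
  have e1 : z ^ (2 * k) = (z ^ 2) ^ i * z ^ (2 * (k - i)) := by
    rw [← pow_mul, ← pow_add]
    congr 1
    omega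
  have e2 : (z - 1) ^ i = (z ^ 2) ^ i * (z⁻¹ - z⁻¹ ^ 2) ^ i := by
    rw [← mul_pow]
    congr 1
    field_simp
  rw [e1, e2, Complex.real_smul]
  ring

theorem tl_one {k : ℕ} (F : ℝ[X]) : (tl k F).eval 1 = ((F.eval 0 : ℝ) : ℂ) := by
  unfold tl
  rw [eval_finsetSum, Finset.sum_range_succ']
  have : ∑ i ∈ Finset.range k, (C ((F.coeff (i + 1) : ℝ) : ℂ) * (X - 1) ^ (i + 1) *
      X ^ (2 * (k - (i + 1)))).eval 1 = 0 := by
    refine Finset.sum_eq_zero fun i _ => ?_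
    simp [eval_mul, eval_pow]
  rw [this, zero_add]
  simp only [eval_mul, eval_C, eval_pow, eval_X, pow_zero, mul_one, one_pow]
  rw [coeff_zero_eq_eval_zero]

theorem ev_conj (F : ℝ[X]) (z : ℂ) : (starRingEnd ℂ) (ev F z) = ev F ((starRingEnd ℂ) z) := by
  unfold ev
  rw [aeval_def, aeval_def, hom_eval₂]
  congr 1
  · ext x
    simp
  · simp

theorem norm_sq_ev (F : ℝ[X]) {z : ℂ} (hz : ‖z‖ = 1) :
    ((‖ev F z‖ ^ 2 : ℝ) : ℂ) = ev F z * ev F z⁻¹ := by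
  have h1 : z⁻¹ = (starRingEnd ℂ) z := by
    rw [Complex.inv_def, Complex.normSq_eq_norm_sq, hz]
    simp
  rw [h1, ← ev_conj, Complex.mul_conj, Complex.normSq_eq_norm_sq]

theorem eq_countable {k : ℕ} {s G : ℝ[X]} (hs : s.natDegree ≤ k) (hG : G.natDegree ≤ k)
    (hs0 : s.eval 0 = 0) (hG0 : G.eval 0 ≠ 0) :
    {z : ℂ | ‖z‖ = 1 ∧ ‖ev s z‖ = ‖ev G z‖}.Countable := by
  set Q : ℂ[X] := (s.map (algebraMap ℝ ℂ)).comp (X - X ^ 2) * tl k s -
    (G.map (algebraMap ℝ ℂ)).comp (X - X ^ 2) * tl k G with hQ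
  have hev : ∀ (F : ℝ[X]) (z : ℂ), ((F.map (algebraMap ℝ ℂ)).comp (X - X ^ 2)).eval z = ev F z := by
    intro F z
    unfold ev
    rw [eval_comp, eval_map_algebraMap]
    simp
  have hQ1 : Q.eval 1 ≠ 0 := by
    rw [hQ, eval_sub, eval_mul, eval_mul, tl_one, tl_one, hs0, hev, hev]
    have e : ev G 1 = ((G.eval 0 : ℝ) : ℂ) := by
      unfold ev
      rw [show (1 : ℂ) - 1 ^ 2 = ((0 : ℝ) : ℂ) by norm_num]
      exact (Polynomial.aeval_algebraMap_apply ℂ (0 : ℝ) G)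
    rw [e]
    simp only [Complex.ofReal_zero, mul_zero, zero_sub, ne_eq, neg_eq_zero, mul_eq_zero,
      Complex.ofReal_eq_zero, or_self]
    exact hG0
  have hQ0 : Q ≠ 0 := by
    intro h; rw [h] at hQ1; simp at hQ1
  refine (Finset.countable_toSet Q.roots.toFinset).mono ?_
  rintro z ⟨hz, heq⟩
  rw [Finset.mem_coe, Multiset.mem_toFinset, mem_roots hQ0]
  have hz0 : z ≠ 0 := by
    intro h; rw [h] at hz; simp at hz
  rw [IsRoot.def, hQ, eval_sub, eval_mul, eval_mul, hev, hev, tl_eval hs hz0, tl_eval hG hz0]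
  have h1 := norm_sq_ev s hz
  have h2 := norm_sq_ev G hz
  rw [heq, h2] at h1
  linear_combination (-z ^ (2 * k)) * h1

/-- the set where the two are close -/
def Bad (s G : ℝ[X]) (κ : ℝ) : Set ℝ := {θ | θ ∈ Ioc 0 (2 * π) ∧
  (1 - κ) * max ‖ev s (circleMap 0 1 θ)‖ ‖ev G (circleMap 0 1 θ)‖ <
    min ‖ev s (circleMap 0 1 θ)‖ ‖ev G (circleMap 0 1 θ)‖}

theorem ev_cont' (F : ℝ[X]) : Continuous (fun θ : ℝ => ‖ev F (circleMap 0 1 θ)‖) := by
  unfold ev
  have h : Continuous (fun θ : ℝ => circleMap 0 1 θ - circleMap 0 1 θ ^ 2) :=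
    (continuous_circleMap 0 1).sub ((continuous_circleMap 0 1).pow 2)
  exact ((Polynomial.continuous_aeval F).comp h).norm

theorem Bad_meas (s G : ℝ[X]) (κ : ℝ) : MeasurableSet (Bad s G κ) := by
  have h1 : IsOpen {θ : ℝ | (1 - κ) * max ‖ev s (circleMap 0 1 θ)‖ ‖ev G (circleMap 0 1 θ)‖ <
      min ‖ev s (circleMap 0 1 θ)‖ ‖ev G (circleMap 0 1 θ)‖} :=
    isOpen_lt (continuous_const.mul ((ev_cont' s).max (ev_cont' G)))
      ((ev_cont' s).min (ev_cont' G))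
  exact measurableSet_Ioc.inter h1.measurableSet

theorem Bad_small {k : ℕ} {s G : ℝ[X]} (hs : s.natDegree ≤ k) (hG : G.natDegree ≤ k)
    (hs0 : s.eval 0 = 0) (hG0 : G.eval 0 ≠ 0) (δ : ℝ) (hδ : 0 < δ) :
    ∃ κ : ℝ, 0 < κ ∧ κ < 1 ∧ volume (Bad s G κ) < ENNReal.ofReal δ := by
  have hanti : Antitone (fun j : ℕ => Bad s G (1 / ((j : ℝ) + 2))) := by
    intro i j hij θ hθ
    refine ⟨hθ.1, lt_of_le_of_lt ?_ hθ.2⟩
    refine mul_le_mul_of_nonneg_right ?_ (le_max_of_le_left (norm_nonneg _))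
    have h1 : 1 / ((j : ℝ) + 2) ≤ 1 / ((i : ℝ) + 2) := by
      apply one_div_le_one_div_of_le (by positivity)
      have : (i : ℝ) ≤ j := by exact_mod_cast hij
      linarith
    linarith
  have hlim := tendsto_measure_iInter_atTop (μ := volume)
    (s := fun j : ℕ => Bad s G (1 / ((j : ℝ) + 2)))
    (fun j => (Bad_meas s G _).nullMeasurableSet) hanti ⟨0, by
      refine ne_top_of_le_ne_top ?_ (measure_mono (fun θ hθ => hθ.1 : _ ⊆ Ioc 0 (2 * π)))
      rw [Real.volume_Ioc]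
      exact ENNReal.ofReal_ne_top⟩
  have hzero : volume (⋂ j : ℕ, Bad s G (1 / ((j : ℝ) + 2))) = 0 := by
    have hc := (eq_countable hs hG hs0 hG0).preimage_circleMap 0 one_ne_zero
    refine measure_mono_null ?_ (hc.measure_zero volume)
    intro θ hθ
    rw [mem_iInter] at hθ
    refine ⟨by simp, ?_⟩
    have h1 : max ‖ev s (circleMap 0 1 θ)‖ ‖ev G (circleMap 0 1 θ)‖ ≤
        min ‖ev s (circleMap 0 1 θ)‖ ‖ev G (circleMap 0 1 θ)‖ := by
      have h2 : Filter.Tendsto (fun j : ℕ => (1 - 1 / ((j : ℝ) + 2)) *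
          max ‖ev s (circleMap 0 1 θ)‖ ‖ev G (circleMap 0 1 θ)‖) Filter.atTop
          (nhds ((1 - 0) * max ‖ev s (circleMap 0 1 θ)‖ ‖ev G (circleMap 0 1 θ)‖)) := by
        refine Filter.Tendsto.mul_const _ (Filter.Tendsto.const_sub _ ?_)
        refine Filter.Tendsto.div_atTop tendsto_const_nhds ?_
        exact Filter.tendsto_atTop_add_const_right _ _ tendsto_natCast_atTop_atTop
      rw [sub_zero, one_mul] at h2
      exact le_of_tendsto h2 (Filter.Eventually.of_forall fun j => (hθ j).2.le)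
    have h3 := (min_le_left ‖ev s (circleMap 0 1 θ)‖ ‖ev G (circleMap 0 1 θ)‖)
    have h4 := (min_le_right ‖ev s (circleMap 0 1 θ)‖ ‖ev G (circleMap 0 1 θ)‖)
    have h5 := (le_max_left ‖ev s (circleMap 0 1 θ)‖ ‖ev G (circleMap 0 1 θ)‖)
    have h6 := (le_max_right ‖ev s (circleMap 0 1 θ)‖ ‖ev G (circleMap 0 1 θ)‖)
    linarith
  rw [hzero] at hlim
  have h7 := hlim.eventually (gt_mem_nhds (ENNReal.ofReal_pos.2 hδ))
  obtain ⟨j, hj⟩ := h7.exists
  refine ⟨1 / ((j : ℝ) + 2), by positivity, ?_, hj⟩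
  rw [div_lt_one (by positivity)]
  have : (0 : ℝ) ≤ j := Nat.cast_nonneg j
  linarith

end H38.ZV
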