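import Mathlib

/-! Elementary growth. -/

namespace H38.ZV

theorem growth_ev (C ε c : ℝ) (hC : 0 < C) (hε : 0 < ε) :
    ∃ N0 : ℕ, ∀ N : ℕ, N0 ≤ N → Real.log (C * (N + 1)) ≤ ε * N + c := by
  have h1 : Filter.Tendsto (fun N : ℕ => ε / 2 * (N : ℝ) + (c - (ε / 2 - 1 - Real.log (ε / (2 * C)))))
      Filter.atTop Filter.atTop := by
    apply Filter.tendsto_atTop_add_const_right
    exact Filter.Tendsto.const_mul_atTop (by linarith) tendsto_natCast_atTop_atTop
  obtain ⟨N0, hN0⟩ := Filter.eventually_atTop.1 (h1.eventually_ge_atTop 0)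
  refine ⟨N0, fun N hN => ?_⟩
  have h2 := hN0 N hN
  have hxp : 0 < C * ((N : ℝ) + 1) := by positivity
  have hdp : 0 < ε / (2 * C) := by positivity
  have h3 : Real.log (ε / (2 * C) * (C * ((N : ℝ) + 1))) ≤ ε / (2 * C) * (C * ((N : ℝ) + 1)) - 1 :=
    Real.log_le_sub_one_of_pos (by positivity)
  rw [Real.log_mul hdp.ne' hxp.ne'] at h3
  have h4 : ε / (2 * C) * (C * ((N : ℝ) + 1)) = ε / 2 * N + ε / 2 := by
    field_simp
  linarith

end H38.ZV
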