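import Pool.Agent.H38.ZV.Val
import Pool.Agent.H38.ZZ.Def2

/-!
# The polynomials `q(X - X ^ 2)`, `q = 2 X ^ n + 3 + 36 f`
-/

open Polynomial

namespace H38.ZV

theorem irr {n : ℕ} (hn : 0 < n) {p : ℤ[X]} (hp : Good n p) (hprim : p.IsPrimitive) :
    Irreducible p := by
  have h00 : p.coeff 0 ≠ 0 := by
    intro h; have := hp.odd; omega
  have htr : p.natTrailingDegree = 0 := natTrailingDegree_eq_zero.2 (Or.inr h00)
  have hRd : p.reverse.natDegree = 2 * n := by rw [reverse_natDegree, htr, hp.deg, Nat.sub_zero]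
  have hRc : ∀ i, i ≤ 2 * n → p.reverse.coeff i = p.coeff (2 * n - i) := by
    intro i hi
    rw [coeff_reverse, hp.deg, revAt_le hi]
  have hP2 : (Ideal.span {(2 : ℤ)}).IsPrime := by
    rw [Ideal.span_singleton_prime (by norm_num)]
    exact Int.prime_two
  have hR : Irreducible p.reverse := by
    refine irreducible_of_eisenstein_criterion hP2 ?_ ?_ ?_ ?_ ?_
    · rw [leadingCoeff, hRd, hRc _ le_rfl, Nat.sub_self, Ideal.mem_span_singleton]
      have := hp.odd
      omega
    · intro i hi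
      rw [degree_eq_natDegree (by
        intro h
        rw [h, natDegree_zero] at hRd
        omega), hRd] at hi
      have hi' : i < 2 * n := by exact_mod_cast hi
      rw [hRc i hi'.le, Ideal.mem_span_singleton]
      exact hp.even _ (by omega)
    · rw [← natDegree_pos_iff_degree_pos, hRd]
      omega
    · rw [hRc 0 (Nat.zero_le _), Nat.sub_zero, pow_two, Ideal.span_singleton_mul_span_singleton,
        Ideal.mem_span_singleton]
      have := hp.lead
      omega
    · rw [IsPrimitive]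
      intro r hr
      apply hprim
      rw [C_dvd_iff_dvd_coeff] at hr ⊢
      intro i
      rcases Nat.lt_or_ge (2 * n) i with hi | hi
      · rw [coeff_eq_zero_of_natDegree_lt (by rw [hp.deg]; exact hi)]
        exact dvd_zero _
      · have h := hr (2 * n - i)
        rw [hRc _ (Nat.sub_le _ _)] at h
        have e : 2 * n - (2 * n - i) = i := by omega
        rwa [e] at h
  refine ⟨fun hu => ?_, fun f g hfg => ?_⟩
  · have := natDegree_eq_zero_of_isUnit hu
    rw [hp.deg] at this
    omega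
  · have hmul : p.reverse = f.reverse * g.reverse := by rw [hfg, reverse_mul_of_domain]
    have hc : p.coeff 0 = f.coeff 0 * g.coeff 0 := by rw [hfg, mul_coeff_zero]
    have hf0 : f.coeff 0 ≠ 0 := by
      intro h; rw [h, zero_mul] at hc; exact h00 hc
    have hg0 : g.coeff 0 ≠ 0 := by
      intro h; rw [h, mul_zero] at hc; exact h00 hc
    have hun : ∀ f : ℤ[X], f.coeff 0 ≠ 0 → f ∣ p → IsUnit f.reverse → IsUnit f := by
      intro f hf hd hu
      have h1 := natDegree_eq_reverse_natDegree_add_natTrailingDegree f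
      rw [natDegree_eq_zero_of_isUnit hu, natTrailingDegree_eq_zero.2 (Or.inr hf)] at h1
      obtain ⟨c, rfl⟩ := natDegree_eq_zero.1 h1
      exact isUnit_C.2 (hprim c hd)
    rcases hR.isUnit_or_isUnit hmul with h | h
    · exact Or.inl (hun f hf0 (Dvd.intro _ hfg.symm) h)
    · exact Or.inr (hun g hg0 (Dvd.intro_left _ hfg.symm) h)

theorem natDegree_t : (X - X ^ 2 : ℤ[X]).natDegree = 2 := by
  rw [show (X - X ^ 2 : ℤ[X]) = -(X ^ 2 - X) by ring, natDegree_neg]
  compute_degree!

theorem leadingCoeff_t : (X - X ^ 2 : ℤ[X]).leadingCoeff = -1 := by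
  rw [leadingCoeff, natDegree_t, coeff_sub, coeff_X_pow, coeff_X]
  norm_num

/-- the polynomial in `t` -/
noncomputable def qq (n : ℕ) (f : ℤ[X]) : ℤ[X] := 2 * X ^ n + 3 + 36 * f

theorem qq_coeff (n : ℕ) (f : ℤ[X]) (i : ℕ) : (qq n f).coeff i =
    (if i = n then 2 else 0) + (if i = 0 then 3 else 0) + 36 * f.coeff i := by
  unfold qq
  have e2 : (2 * X ^ n : ℤ[X]) = C 2 * X ^ n := rfl
  have e3 : (3 : ℤ[X]) = C 3 := rfl
  have e36 : (36 * f : ℤ[X]) = C 36 * f := rfl
  rw [e2, e3, e36, coeff_add, coeff_add, coeff_C_mul, coeff_C_mul, coeff_X_pow, coeff_C]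
  congr 1
  congr 1
  split_ifs <;> simp

theorem qq_natDegree {n : ℕ} (hn : 0 < n) {f : ℤ[X]} (hf : f.natDegree ≤ n) :
    (qq n f).natDegree = n := by
  refine natDegree_eq_of_le_of_coeff_ne_zero ?_ ?_
  · rw [natDegree_le_iff_coeff_eq_zero]
    intro m hm
    rw [qq_coeff, if_neg (by omega), if_neg (by omega),
      coeff_eq_zero_of_natDegree_lt (lt_of_le_of_lt hf hm)]
    norm_num
  · rw [qq_coeff, if_pos rfl, if_neg (by omega)]
    omega

/-- the polynomial in `z` -/
noncomputable def PP (n : ℕ) (f : ℤ[X]) : ℤ[X] := (qq n f).comp (X - X ^ 2)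

theorem PP_good {n : ℕ} (hn : 0 < n) {f : ℤ[X]} (hf : f.natDegree ≤ n) :
    Good n (PP n f) ∧ ¬ 3 ∣ (PP n f).coeff (2 * n) := by
  have hdeg : (PP n f).natDegree = 2 * n := by
    unfold PP
    rw [natDegree_comp, qq_natDegree hn hf, natDegree_t, mul_comm]
  have hl : (PP n f).coeff (2 * n) = (2 + 36 * f.coeff n) * (-1) ^ n := by
    rw [← hdeg]
    change (PP n f).leadingCoeff = _
    unfold PP
    rw [leadingCoeff_comp (by rw [natDegree_t]; norm_num), leadingCoeff_t, leadingCoeff,
      qq_natDegree hn hf, qq_coeff, if_pos rfl, if_neg (by omega), add_zero]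
  have h0 : (PP n f).coeff 0 = 3 + 36 * f.coeff 0 := by
    unfold PP
    rw [coeff_zero_eq_eval_zero, eval_comp]
    simp only [eval_sub, eval_X, eval_pow, sub_zero, ne_eq, OfNat.ofNat_ne_zero,
      not_false_eq_true, zero_pow]
    rw [← coeff_zero_eq_eval_zero, qq_coeff, if_neg (by omega), if_pos rfl, zero_add]
  have hodd : PP n f = 1 + C 2 * ((X - X ^ 2) ^ n + 1 + 18 * f.comp (X - X ^ 2)) := by
    unfold PP qq
    simp only [add_comp, mul_comp, X_pow_comp, ofNat_comp]
    have e2 : (C 2 : ℤ[X]) = 2 := rfl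
    rw [e2]
    ring
  refine ⟨⟨hdeg, ?_, ?_, ?_, ?_, ?_⟩, ?_⟩
  · rw [hl]
    rcases neg_one_pow_eq_or ℤ n with h | h <;> rw [h] <;> omega
  · rw [h0]; omega
  · intro i hi
    rw [hodd, coeff_add, coeff_one, if_neg (by omega), zero_add, coeff_C_mul]
    exact Dvd.intro _ rfl
  · rw [h0]; omega
  · rw [h0]; omega
  · rw [hl]
    rcases neg_one_pow_eq_or ℤ n with h | h <;> rw [h] <;> omega

theorem primPart_good {n : ℕ} {P : ℤ[X]} (hP : Good n P) (h3 : ¬ 3 ∣ P.coeff (2 * n)) :
    Good n P.primPart := by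
  obtain ⟨c, hc⟩ : ∃ c : ℤ, c = P.content := ⟨_, rfl⟩
  have hco : ∀ i, P.coeff i = c * P.primPart.coeff i := by
    intro i
    conv_lhs => rw [P.eq_C_content_mul_primPart]
    rw [coeff_C_mul, hc]
  have hodd : Odd c := by
    have h1 := hP.odd
    rw [hco 0] at h1
    exact (Int.odd_mul.1 (Int.odd_iff.2 h1)).1
  have hc3 : ¬ 3 ∣ c := by
    intro h
    apply h3
    rw [hco]
    exact Dvd.dvd.mul_right h _
  refine ⟨?_, ?_, ?_, ?_, ?_, ?_⟩
  · rw [natDegree_primPart, hP.deg]
  · have h1 := hP.lead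
    rw [hco] at h1
    have h2 : (2 : ℤ) ∣ P.primPart.coeff (2 * n) := by
      have h4 : (2 : ℤ) ∣ c * P.primPart.coeff (2 * n) := by omega
      rcases Int.prime_two.dvd_mul.1 h4 with h | h
      · exfalso
        rcases hodd with ⟨k, hk⟩
        omega
      · exact h
    obtain ⟨y, hy⟩ := h2
    rw [hy] at h1 ⊢
    have h5 : (c * y) % 2 = 1 := by
      have e : c * (2 * y) = 2 * (c * y) := by ring
      rw [e] at h1
      omega
    have h6 := (Int.odd_mul.1 (Int.odd_iff.2 h5)).2
    rcases h6 with ⟨k, hk⟩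
    omega
  · have h1 := hP.odd
    rw [hco 0] at h1
    exact Int.odd_iff.1 (Int.odd_mul.1 (Int.odd_iff.2 h1)).2
  · intro i hi
    have h1 := hP.even i hi
    rw [hco] at h1
    rcases Int.prime_two.dvd_mul.1 h1 with h | h
    · exfalso
      rcases hodd with ⟨k, hk⟩
      omega
    · exact h
  · have h1 := hP.three
    rw [hco] at h1
    rcases Int.prime_three.dvd_mul.1 h1 with h | h
    · exact absurd h hc3
    · exact h
  · intro h
    apply hP.nine
    rw [hco]
    exact Dvd.dvd.mul_left h _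

open H38.ZZ in
/-- the algebraic number -/
theorem alg {n : ℕ} (hn : 0 < n) {f : ℤ[X]} (hf : f.natDegree ≤ n) {L : ℝ}
    (hL : Real.log ((PP n f).map (Int.castRingHom ℂ)).mahlerMeasure ≤ L * n) :
    ∃ (α : ℂ) (p : ℤ[X]), IsAlgebraic ℚ α ∧ zzHeight α ≤ L ∧ Good n p ∧
      (p.map (Int.castRingHom ℂ)).mahlerMeasure = Real.exp (n * zzHeight α) := by
  obtain ⟨hG, h3⟩ := PP_good hn hf
  set P := PP n f with hP
  have hP0 : P ≠ 0 := by
    intro h
    have := hG.lead
    rw [h, coeff_zero] at this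
    norm_num at this
  have hg := primPart_good hG h3
  set p := P.primPart with hp
  have hprim : p.IsPrimitive := isPrimitive_primPart P
  have hirr := irr hn hg hprim
  have hp0 : p ≠ 0 := hirr.ne_zero
  have hpd : 0 < p.natDegree := by rw [hg.deg]; omega
  have hcne : P.content ≠ 0 := by rw [Ne, content_eq_zero_iff]; exact hP0
  have hPc : P = C P.content * p := P.eq_C_content_mul_primPart
  -- symmetry
  have hPsym : P.comp (1 - X) = P := by
    rw [hP]; unfold PP
    rw [comp_assoc]
    congr 1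
    simp only [sub_comp, X_comp, X_pow_comp]
    ring
  have hpsym : p.comp (1 - X) = p := by
    have h := hPsym
    rw [hPc, mul_comp, C_comp] at h
    exact mul_left_cancel₀ (C_ne_zero.2 hcne) h
  -- a root
  have hdegC : (p.map (Int.castRingHom ℂ)).degree ≠ 0 := by
    rw [degree_map_eq_of_injective (RingHom.injective_int _)]
    intro h
    have := natDegree_eq_zero_iff_degree_le_zero.2 h.le
    omega
  obtain ⟨α, hα⟩ := IsAlgClosed.exists_root (p.map (Int.castRingHom ℂ)) hdegC
  have hαp : aeval α p = 0 := by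
    rw [aeval_def, eval₂_eq_eval_map]; exact hα
  have hMpos : 0 < (p.map (Int.castRingHom ℂ)).mahlerMeasure :=
    mahlerMeasure_pos_of_ne_zero (by
      rw [Ne, Polynomial.map_eq_zero_iff (RingHom.injective_int _)]
      exact hp0)
  have hz : zzHeight α = Real.log (p.map (Int.castRingHom ℂ)).mahlerMeasure / n := by
    rw [zzHeight_eq hirr hpd hαp]
    unfold Pool.H1.ZZ.height
    rw [hpsym, hg.deg]
    push_cast
    have : (0 : ℝ) < n := by exact_mod_cast hn
    field_simp
    ring
  have hn' : (0 : ℝ) < n := by exact_mod_cast hn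
  refine ⟨α, p, ?_, ?_, hg, ?_⟩
  · refine ⟨p.map (Int.castRingHom ℚ), ?_, ?_⟩
    · rw [Polynomial.map_ne_zero_iff (RingHom.injective_int _)]
      exact hp0
    · rw [aeval_map_rat, hαp]
  · rw [hz, div_le_iff₀ hn']
    refine le_trans ?_ hL
    rw [hPc, Polynomial.map_mul, mahlerMeasure_mul, map_C, mahlerMeasure_const]
    refine Real.log_le_log hMpos ?_
    have h1 : (1 : ℝ) ≤ ‖(Int.castRingHom ℂ) P.content‖ := by
      rw [eq_intCast, Complex.norm_intCast]
      exact_mod_cast Int.one_le_abs hcne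
    nlinarith
  · rw [hz, mul_div_cancel₀ _ hn'.ne', Real.exp_log hMpos]

end H38.ZV
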