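import Pool.Agent.H38.ZV.Den1
import Pool.Agent.H38.ZV.Den2
import Pool.Agent.H38.ZV.Pol
import Pool.Agent.H38.ZV.Gro
import Pool.Agent.H1.ZU.Fin

/-!
# The values of the height are dense above the bound
-/

open MeasureTheory Set Polynomial Pool.H1.ZU H38.ZZ
open scoped Real

namespace H38.ZV

/-- one more degree, with the rounding of the leading coefficient -/
theorem cov_top2 {n : ℕ} {T : ℝ[X]} (hT : T.natDegree = n + 1) (hc : 1 ≤ |T.leadingCoeff|)
    {b B' : ℂ → ℝ} (h' : Cov n B') (hb : ∀ z : ℂ, ‖z‖ = 1 → ‖ev T z‖ ≤ b z) (g : ℝ[X])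
    (hg : g.natDegree ≤ n + 1) : ∃ f : ℤ[X], f.natDegree ≤ n + 1 ∧
      f.coeff (n + 1) = round (g.coeff (n + 1)) ∧
      ∀ z : ℂ, ‖z‖ = 1 → ‖ev (g - ri f) z‖ ≤ b z + B' z := by
  have hTc : T.coeff (n + 1) = T.leadingCoeff := by rw [← hT]; rfl
  have hl0 : T.leadingCoeff ≠ 0 := by
    intro h; rw [h, abs_zero] at hc; linarith
  set x : ℝ := g.coeff (n + 1) with hx
  set y : ℝ := (x - round x) / T.leadingCoeff with hy
  have hy1 : |y| ≤ 1 := by
    rw [hy, abs_div, div_le_one (by linarith)]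
    have := abs_sub_round x
    linarith
  have hdeg : (g - ri (C (round x) * X ^ (n + 1)) - C y * T).natDegree ≤ n := by
    rw [natDegree_le_iff_coeff_eq_zero]
    intro m hm
    rw [coeff_sub, coeff_sub, coeff_C_mul]
    have e1 : (ri (C (round x) * X ^ (n + 1))).coeff m = if m = n + 1 then (round x : ℝ) else 0 := by
      unfold ri
      rw [coeff_map, coeff_C_mul_X_pow]
      split_ifs <;> simp
    rw [e1]
    rcases Nat.lt_or_ge (n + 1) m with h | h
    · rw [coeff_eq_zero_of_natDegree_lt (lt_of_le_of_lt hg h),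
        coeff_eq_zero_of_natDegree_lt (by rw [hT]; exact h), if_neg (by omega)]
      ring
    · have hm2 : m = n + 1 := by omega
      rw [if_pos hm2, hm2, hTc, hy, ← hx]
      field_simp
      ring
  obtain ⟨f1, hf1, hb1⟩ := h' _ hdeg
  refine ⟨C (round x) * X ^ (n + 1) + f1, ?_, ?_, ?_⟩
  · refine (natDegree_add_le _ _).trans (max_le (natDegree_C_mul_X_pow_le _ _) (hf1.trans (by omega)))
  · rw [coeff_add, coeff_C_mul_X_pow, if_pos rfl,
      coeff_eq_zero_of_natDegree_lt (lt_of_le_of_lt hf1 (Nat.lt_succ_self n)), add_zero]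
  · intro z hz
    have e : g - ri (C (round x) * X ^ (n + 1) + f1) =
        C y * T + (g - ri (C (round x) * X ^ (n + 1)) - C y * T - ri f1) := by
      rw [ri_add]; ring
    rw [e, ev_add]
    refine (norm_add_le _ _).trans (add_le_add ?_ (hb1 z hz))
    rw [ev_mul, norm_mul, ev_C, Complex.norm_real, Real.norm_eq_abs]
    calc |y| * ‖ev T z‖ ≤ 1 * ‖ev T z‖ := mul_le_mul_of_nonneg_right hy1 (norm_nonneg _)
      _ ≤ b z := by rw [one_mul]; exact hb z hz

theorem round_aux : round (-(1 / 18) : ℝ) = 0 := by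
  rw [round_eq, Int.floor_eq_iff]
  norm_num

/-- approximation of a real polynomial by one in the residue class, with leading coefficient `2` -/
theorem approx {n : ℕ} {T : ℝ[X]} (hT : T.natDegree = n + 1) (hc : 1 ≤ |T.leadingCoeff|)
    {b B' : ℂ → ℝ} (h' : Cov n B') (hb : ∀ z : ℂ, ‖z‖ = 1 → ‖ev T z‖ ≤ b z) (g : ℝ[X])
    (hg : g.natDegree ≤ n) : ∃ f : ℤ[X], f.natDegree ≤ n + 1 ∧ f.coeff (n + 1) = 0 ∧
      ∀ z : ℂ, ‖z‖ = 1 → ‖ev (ri (qq (n + 1) f)) z - ev g z‖ ≤ 36 * (b z + B' z) := by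
  set v : ℤ[X] := 2 * X ^ (n + 1) + 3 with hv
  have e2 : v = C 2 * X ^ (n + 1) + C 3 := rfl
  have hvd : v.natDegree ≤ n + 1 := by
    rw [e2]
    refine (natDegree_add_le _ _).trans (max_le (natDegree_C_mul_X_pow_le _ _) ?_)
    rw [natDegree_C]
    exact Nat.zero_le _
  have hvc : (ri v).coeff (n + 1) = 2 := by
    unfold ri
    rw [coeff_map, e2, coeff_add, coeff_C_mul_X_pow, if_pos rfl, coeff_C, if_neg (by omega)]
    norm_num
  have hd : (C (1 / 36 : ℝ) * (g - ri v)).natDegree ≤ n + 1 := by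
    refine (natDegree_C_mul_le _ _).trans ((natDegree_sub_le _ _).trans (max_le (by omega) ?_))
    rw [ri_natDegree]
    exact hvd
  obtain ⟨f, hf, hfc, hfb⟩ := cov_top2 hT hc h' hb _ hd
  refine ⟨f, hf, ?_, fun z hz => ?_⟩
  · rw [hfc, coeff_C_mul, coeff_sub, hvc,
      coeff_eq_zero_of_natDegree_lt (lt_of_le_of_lt hg (Nat.lt_succ_self n))]
    rw [show (1 / 36 : ℝ) * (0 - 2) = -(1 / 18) by norm_num]
    exact round_aux
  · have e36 : ri 36 = C 36 := by
      unfold ri
      rw [show (36 : ℤ[X]) = C 36 from rfl, map_C]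
      norm_num
    have e : ri (qq (n + 1) f) = g - C 36 * (C (1 / 36 : ℝ) * (g - ri v) - ri f) := by
      have e3 : qq (n + 1) f = v + 36 * f := rfl
      rw [e3, ri_add, ri_mul 36 f, e36, mul_sub (C 36), ← mul_assoc, ← C_mul]
      norm_num
      ring
    rw [e, ev_sub g, ev_mul, ev_C]
    have e4 : ev g z - ((36 : ℝ) : ℂ) * ev (C (1 / 36 : ℝ) * (g - ri v) - ri f) z - ev g z =
        -(((36 : ℝ) : ℂ) * ev (C (1 / 36 : ℝ) * (g - ri v) - ri f) z) := by ring
    rw [e4, norm_neg, norm_mul, Complex.norm_real]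
    have h := hfb z hz
    have : ‖(36 : ℝ)‖ = 36 := by norm_num
    rw [this]
    linarith

/-- the algebraic number, leading coefficient `2` -/
theorem alg2 {n : ℕ} (hn : 0 < n) {f : ℤ[X]} (hf : f.natDegree ≤ n) (hf0 : f.coeff n = 0) :
    (∃ α : ℂ, IsAlgebraic ℚ α ∧
      zzHeight α = Real.log ((PP n f).map (Int.castRingHom ℂ)).mahlerMeasure / n) ∧
    1 ≤ ‖((PP n f).map (Int.castRingHom ℂ)).leadingCoeff‖ ∧
    ((PP n f).map (Int.castRingHom ℂ)).natDegree = 2 * n := by
  obtain ⟨hG, h3⟩ := PP_good hn hf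
  have hl : (PP n f).leadingCoeff = 2 * (-1) ^ n := by
    unfold PP
    rw [leadingCoeff_comp (by rw [natDegree_t]; norm_num), leadingCoeff_t, leadingCoeff,
      qq_natDegree hn hf, qq_coeff, if_pos rfl, if_neg (by omega), hf0]
    norm_num
  have hsy : (PP n f).comp (1 - X) = PP n f := by
    unfold PP
    rw [comp_assoc]
    congr 1
    simp only [sub_comp, X_comp, X_pow_comp]
    ring
  set P := PP n f with hP
  have hprim : P.IsPrimitive := by
    intro r hr
    rw [C_dvd_iff_dvd_coeff] at hr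
    have h1 := hr (2 * n)
    have h0 := hr 0
    have h2 : r ∣ 2 := by
      have e : P.coeff (2 * n) = 2 * (-1) ^ n := by rw [← hl, leadingCoeff, hG.deg]
      rw [e] at h1
      rcases neg_one_pow_eq_or ℤ n with h | h
      · rwa [h, mul_one] at h1
      · rw [h] at h1
        rw [← dvd_neg]
        simpa using h1
    have h4 : r ∣ 1 := by
      have h5 : r ∣ P.coeff 0 - 2 * (P.coeff 0 / 2) := dvd_sub h0 (Dvd.dvd.mul_right h2 _)
      have h6 : P.coeff 0 - 2 * (P.coeff 0 / 2) = 1 := by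
        have := hG.odd
        omega
      rwa [h6] at h5
    exact isUnit_of_dvd_one h4
  have hirr := irr hn hG hprim
  have hp0 : P ≠ 0 := hirr.ne_zero
  have hpd : 0 < P.natDegree := by rw [hG.deg]; omega
  refine ⟨?_, ?_, ?_⟩
  · have hdegC : (P.map (Int.castRingHom ℂ)).degree ≠ 0 := by
      rw [degree_map_eq_of_injective (RingHom.injective_int _)]
      intro h
      have := natDegree_eq_zero_iff_degree_le_zero.2 h.le
      omega
    obtain ⟨α, hα⟩ := IsAlgClosed.exists_root (P.map (Int.castRingHom ℂ)) hdegC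
    have hαp : aeval α P = 0 := by
      rw [aeval_def, eval₂_eq_eval_map]; exact hα
    refine ⟨α, ?_, ?_⟩
    · refine ⟨P.map (Int.castRingHom ℚ), ?_, ?_⟩
      · rw [Polynomial.map_ne_zero_iff (RingHom.injective_int _)]
        exact hp0
      · rw [aeval_map_rat, hαp]
    · rw [zzHeight_eq hirr hpd hαp]
      unfold Pool.H1.ZZ.height
      rw [hsy, hG.deg]
      push_cast
      have : (0 : ℝ) < n := by exact_mod_cast hn
      field_simp
      ring
  · rw [leadingCoeff_map_of_injective (RingHom.injective_int _), hl]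
    simp
  · rw [natDegree_map_eq_of_injective (RingHom.injective_int _), hG.deg]

theorem eval_PP (n : ℕ) (f : ℤ[X]) (z : ℂ) :
    ((PP n f).map (Int.castRingHom ℂ)).eval z = ev (ri (qq n f)) z := by
  unfold PP
  have e1 : eval z (((qq n f).comp (X - X ^ 2)).map (Int.castRingHom ℂ)) =
      aeval (z - z ^ 2) (qq n f) := by
    rw [eval_map, eval₂_comp, aeval_def]
    congr 1
    simp
  have e2 : ev (ri (qq n f)) z = aeval (z - z ^ 2) (qq n f) := by
    unfold ev ri
    rw [aeval_def, eval₂_map, aeval_def]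
    congr 1
  rw [e1, e2]

end H38.ZV
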