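import Pool.Agent.H38.ZV.Den3

/-!
# The values of the height are dense above the bound: the proof
-/

open MeasureTheory Set Polynomial Pool.H1.ZU H38.ZZ
open scoped Real

namespace H38.ZV

/-- the lower bound of the Mahler measure -/
theorem mahler_lb {p : ℂ[X]} {D : ℕ} (hD : p.natDegree = D)
    {S : Set ℝ} (hS : MeasurableSet S) (hSI : S ⊆ Ioc 0 (2 * π)) {ε δ : ℝ}
    (hJ : -(ε * p.natDegree) ≤ JJ S p) (hδ : volume.real S ≤ δ) {U : ℝ → ℝ} {c0 CU : ℝ}
    (hU : Continuous U) (hUb : ∀ θ, U θ ≤ CU) (hCU : 0 ≤ CU) (hc0 : 0 ≤ c0)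
    (hlb : ∀ θ ∈ Ioc 0 (2 * π), θ ∉ S → U θ - c0 ≤ Real.log ‖p.eval (circleMap 0 1 θ)‖) :
    (∫ θ in (0 : ℝ)..(2 * π), U θ) - 2 * π * c0 - δ * CU - ε * D ≤
      2 * π * Real.log p.mahlerMeasure := by
  have h2π : (0 : ℝ) ≤ 2 * π := by positivity
  have hSI' : S ⊆ Icc 0 (2 * π) := hSI.trans Ioc_subset_Icc_self
  have hIm : MeasurableSet (Ioc (0 : ℝ) (2 * π)) := measurableSet_Ioc
  have hlogI : IntegrableOn (fun θ => Real.log ‖p.eval (circleMap 0 1 θ)‖) (Ioc 0 (2 * π)) :=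
    log_intOn Ioc_subset_Icc_self p
  have hUI : IntegrableOn U (Ioc 0 (2 * π)) :=
    (hU.integrableOn_Icc).mono_set Ioc_subset_Icc_self
  have hSfin : volume S ≠ ⊤ := by
    refine ne_top_of_le_ne_top ?_ (measure_mono hSI)
    rw [Real.volume_Ioc]
    exact ENNReal.ofReal_ne_top
  have e1 : 2 * π * Real.log p.mahlerMeasure =
      ∫ θ in Ioc 0 (2 * π), Real.log ‖p.eval (circleMap 0 1 θ)‖ := by
    rw [← logMahlerMeasure_eq_log_MahlerMeasure, logMahlerMeasure_def, Real.circleAverage_def,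
      smul_eq_mul, intervalIntegral.integral_of_le h2π]
    field_simp
  have e2 : ∫ θ in Ioc 0 (2 * π), Real.log ‖p.eval (circleMap 0 1 θ)‖ =
      (∫ θ in S, Real.log ‖p.eval (circleMap 0 1 θ)‖) +
      ∫ θ in Ioc 0 (2 * π) \ S, Real.log ‖p.eval (circleMap 0 1 θ)‖ := by
    rw [← setIntegral_union disjoint_sdiff_right (hIm.diff hS) (hlogI.mono_set hSI)
      (hlogI.mono_set sdiff_subset), union_sdiff_cancel hSI]
  have e3 : ∫ θ in Ioc 0 (2 * π), U θ = (∫ θ in S, U θ) + ∫ θ in Ioc 0 (2 * π) \ S, U θ := by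
    rw [← setIntegral_union disjoint_sdiff_right (hIm.diff hS) (hUI.mono_set hSI)
      (hUI.mono_set sdiff_subset), union_sdiff_cancel hSI]
  have e4 : ∫ θ in S, U θ ≤ δ * CU := by
    have h1 : ∫ θ in S, U θ ≤ ∫ _θ in S, CU :=
      setIntegral_mono_on (hUI.mono_set hSI) (integrableOn_const hSfin) hS fun θ _ => hUb θ
    rw [setIntegral_const, smul_eq_mul] at h1
    exact h1.trans (mul_le_mul_of_nonneg_right hδ hCU)
  have hDfin : volume (Ioc 0 (2 * π) \ S) ≠ ⊤ := by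
    refine ne_top_of_le_ne_top ?_ (measure_mono sdiff_subset)
    rw [Real.volume_Ioc]
    exact ENNReal.ofReal_ne_top
  have e5 : (∫ θ in Ioc 0 (2 * π) \ S, U θ) - 2 * π * c0 ≤
      ∫ θ in Ioc 0 (2 * π) \ S, Real.log ‖p.eval (circleMap 0 1 θ)‖ := by
    have h1 : ∫ θ in Ioc 0 (2 * π) \ S, (U θ - c0) ≤
        ∫ θ in Ioc 0 (2 * π) \ S, Real.log ‖p.eval (circleMap 0 1 θ)‖ :=
      setIntegral_mono_on ((hUI.mono_set sdiff_subset).sub (integrableOn_const hDfin))
        (hlogI.mono_set sdiff_subset) (hIm.diff hS) fun θ hθ => hlb θ hθ.1 hθ.2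
    rw [integral_sub (hUI.mono_set sdiff_subset) (integrableOn_const hDfin), setIntegral_const,
      smul_eq_mul] at h1
    have h2 : volume.real (Ioc 0 (2 * π) \ S) ≤ 2 * π := by
      have h3 : volume.real (Ioc 0 (2 * π) \ S) ≤ volume.real (Ioc 0 (2 * π)) := by
        refine measureReal_mono sdiff_subset ?_
        rw [Real.volume_Ioc]
        exact ENNReal.ofReal_ne_top
      rw [Real.volume_real_Ioc_of_le h2π, sub_zero] at h3
      exact h3
    have h4 := mul_le_mul_of_nonneg_right h2 hc0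
    linarith
  unfold JJ at hJ
  rw [hD] at hJ
  rw [e1, e2, intervalIntegral.integral_of_le h2π, e3]
  linarith

/-- **Density.** -/
theorem dense_aux (hC : S_COV) (hM : S_MAH) (a b c k : ℕ) (ha : 0 < a) (hk : 0 < k)
    (habc : a + b + 4 * c ≤ k)
    (G : ℝ[X]) (hdeg : G.natDegree = k) (hlead : 1 ≤ |G.leadingCoeff|) (h0 : 1 ≤ |G.eval 0|)
    (h1 : 1 ≤ |G.eval 1|) (hb : 1 ≤ ‖aeval b1 G‖ * ‖aeval b3 G‖) (L : ℝ)
    (hL : Real.circleAverage (fun z => Real.log (‖ev (ri (X ^ a * (X - 1) ^ b * N10 ^ c)) z‖ ^ 2 +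
      ‖ev G z‖ ^ 2)) 0 1 < 2 * L * k) (x : ℝ) (hx : L ≤ x) (hx0 : 0 < x) (ε : ℝ) (hε : 0 < ε) :
    ∃ α : ℂ, IsAlgebraic ℚ α ∧ |zzHeight α - x| < ε := by
  have hkr : (0 : ℝ) < k := by exact_mod_cast hk
  set sz : ℤ[X] := X ^ a * (X - 1) ^ b * N10 ^ c with hsz
  set s : ℝ[X] := ri sz with hs
  have hN10 : N10.Monic := N10_monic
  have hszd : sz.natDegree = a + b + 4 * c := by
    rw [hsz, show (X - 1 : ℤ[X]) = X - C 1 by rw [C_1],
      Monic.natDegree_mul ((monic_X_pow a).mul ((monic_X_sub_C (1 : ℤ)).pow b))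
      (hN10.pow c), Monic.natDegree_mul (monic_X_pow a) ((monic_X_sub_C (1 : ℤ)).pow b),
      natDegree_X_pow, hN10.natDegree_pow, N10_natDegree, natDegree_pow, natDegree_X_sub_C]
    ring
  have hsd : s.natDegree ≤ k := by rw [hs, ri_natDegree, hszd]; exact habc
  have hs0 : s.eval 0 = 0 := by
    rw [hs]; unfold ri
    rw [eval_zero_map, hsz]
    simp [ha.ne']
  have hG0 : G.eval 0 ≠ 0 := by
    intro h; rw [h, abs_zero] at h0; linarith
  -- the majorant
  set E : ℂ → ℝ := fun z => max ‖ev s z‖ ‖ev G z‖ with hE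
  have hEc : Continuous E := (Pool.Agent.H14.ZU.ev_cont s).norm.max (Pool.Agent.H14.ZU.ev_cont G).norm
  have hEpos : ∀ z : ℂ, 0 < E z := by
    intro z
    by_contra hcon
    have e1 : ‖ev s z‖ ≤ 0 := (le_max_left _ _).trans (not_lt.1 hcon)
    have e2 : ‖ev G z‖ ≤ 0 := (le_max_right _ _).trans (not_lt.1 hcon)
    exact Pool.Agent.H14.ZU.no_common h0 h1 hb z (norm_le_zero_iff.1 e1) (norm_le_zero_iff.1 e2)
  have hElc : Continuous (fun z => Real.log (E z)) := hEc.log fun z => (hEpos z).ne'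
  obtain ⟨K, hK, hcov⟩ := hC a b c k hk habc G hdeg hlead h0 h1 hb E (fun z _ => le_max_left _ _)
    (fun z _ => le_max_right _ _)
  obtain ⟨I, hI⟩ : ∃ I, I = Real.circleAverage (fun z => Real.log (E z)) 0 1 := ⟨_, rfl⟩
  have hIL : I < L * k := by
    have h2 : I ≤ 1 / 2 * Real.circleAverage (fun z => Real.log (‖ev s z‖ ^ 2 + ‖ev G z‖ ^ 2)) 0 1 := by
      have hWpos : ∀ z : ℂ, 0 < ‖ev s z‖ ^ 2 + ‖ev G z‖ ^ 2 := by
        intro z
        rcases max_choice ‖ev s z‖ ‖ev G z‖ with h | h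
        · have := hEpos z
          simp only [hE] at this
          rw [h] at this
          positivity
        · have := hEpos z
          simp only [hE] at this
          rw [h] at this
          positivity
      have hWc : Continuous (fun z => ‖ev s z‖ ^ 2 + ‖ev G z‖ ^ 2) :=
        ((Pool.Agent.H14.ZU.ev_cont s).norm.pow 2).add ((Pool.Agent.H14.ZU.ev_cont G).norm.pow 2)
      have hWlc : Continuous (fun z => Real.log (‖ev s z‖ ^ 2 + ‖ev G z‖ ^ 2)) :=
        hWc.log fun z => (hWpos z).ne'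
      have e1 : 1 / 2 * Real.circleAverage (fun z => Real.log (‖ev s z‖ ^ 2 + ‖ev G z‖ ^ 2)) 0 1 =
          Real.circleAverage (fun z => (1 / 2 : ℝ) • Real.log (‖ev s z‖ ^ 2 + ‖ev G z‖ ^ 2)) 0 1 := by
        rw [Real.circleAverage_fun_smul, smul_eq_mul]
      rw [e1, hI]
      refine Real.circleAverage_mono ?_ ?_ ?_
      · exact hElc.continuousOn.circleIntegrable (by norm_num)
      · exact (hWlc.const_smul (1 / 2 : ℝ)).continuousOn.circleIntegrable (by norm_num)
      · intro z _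
        have h3 : E z ^ 2 ≤ ‖ev s z‖ ^ 2 + ‖ev G z‖ ^ 2 := by
          simp only [hE]
          rcases max_choice ‖ev s z‖ ‖ev G z‖ with h | h <;> rw [h]
          · have := sq_nonneg ‖ev G z‖
            linarith
          · have := sq_nonneg ‖ev s z‖
            linarith
        have h4 := Real.log_le_log (pow_pos (hEpos z) 2) h3
        rw [Real.log_pow] at h4
        simp only [smul_eq_mul]
        push_cast at h4
        linarith
    linarith
  obtain ⟨ℓ, hℓ⟩ : ∃ ℓ : ℝ, ℓ = x * k - I := ⟨_, rfl⟩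
  have hℓ0 : 0 < ℓ := by
    have := mul_le_mul_of_nonneg_right hx hkr.le
    linarith
  -- constants
  obtain ⟨M, hM0, hMb⟩ := ev_bound (X : ℝ[X])
  obtain ⟨M', hM'⟩ : ∃ M', M' = max M 1 := ⟨_, rfl⟩
  have hM'1 : 1 ≤ M' := by rw [hM']; exact le_max_right _ _
  obtain ⟨CE, hCE0, hCE⟩ : ∃ CE : ℝ, 0 ≤ CE ∧ ∀ θ : ℝ, ℓ + Real.log (E (circleMap 0 1 θ)) ≤ CE := by
    obtain ⟨C1, hC1⟩ := (isCompact_sphere (0 : ℂ) 1).exists_bound_of_continuousOn
      (hElc.continuousOn (s := Metric.sphere (0 : ℂ) 1))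
    refine ⟨max (ℓ + C1) 0, le_max_right _ _, fun θ => le_trans ?_ (le_max_left _ _)⟩
    have := hC1 (circleMap 0 1 θ) (by simp)
    have h2 := le_abs_self (Real.log (E (circleMap 0 1 θ)))
    rw [Real.norm_eq_abs] at this
    linarith
  obtain ⟨δ1, hδ1, hun⟩ := unif_poly (ε / 2) (by positivity)
  obtain ⟨δ, hδ⟩ : ∃ δ, δ = min δ1 (ε / (CE + 1)) := ⟨_, rfl⟩
  have hδ0 : 0 < δ := by rw [hδ]; exact lt_min hδ1 (by positivity)
  obtain ⟨κ, hκ0, hκ1, hκ⟩ := Bad_small hsd hdeg.le hs0 hG0 δ hδ0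
  obtain ⟨S, hSdef⟩ : ∃ S, S = Bad s G κ := ⟨_, rfl⟩
  rw [← hSdef] at hκ
  have hSm : MeasurableSet S := by rw [hSdef]; exact Bad_meas s G κ
  have hSI : S ⊆ Ioc 0 (2 * π) := by rw [hSdef]; exact fun θ hθ => hθ.1
  have hSv1 : volume S < ENNReal.ofReal δ1 := lt_of_lt_of_le hκ
    (ENNReal.ofReal_le_ofReal (by rw [hδ]; exact min_le_left _ _))
  have hSr : volume.real S ≤ δ := ENNReal.toReal_le_of_le_ofReal hδ0.le hκ.le
  have hδCE : δ * CE ≤ ε := by
    have h2 : δ ≤ ε / (CE + 1) := by rw [hδ]; exact min_le_right _ _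
    have h3 : δ * CE ≤ ε / (CE + 1) * CE := mul_le_mul_of_nonneg_right h2 hCE0
    have h4 : ε / (CE + 1) * CE ≤ ε := by
      rw [div_mul_eq_mul_div, div_le_iff₀ (by linarith)]
      nlinarith
    linarith
  -- the size of `N`
  obtain ⟨N1, hN1⟩ := growth_ev (144 * (M' ^ (k + 1) + K)) ℓ 0 (by positivity) hℓ0
  obtain ⟨N2, hN2⟩ : ∃ N2 : ℕ, ∀ N, N2 ≤ N → (1 - κ) ^ N ≤ 1 / 2 := by
    have h2 := tendsto_pow_atTop_nhds_zero_of_lt_one (r := 1 - κ) (by linarith) (by linarith)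
    have h3 := h2.eventually (gt_mem_nhds (by norm_num : (0 : ℝ) < 1 / 2))
    obtain ⟨N2, hN2⟩ := Filter.eventually_atTop.1 h3
    exact ⟨N2, fun N hN => (hN2 N hN).le⟩
  obtain ⟨N3, hN3⟩ := exists_nat_gt (3 * (x * (k + 1) + Real.log 4 + Real.log 3) / ε)
  obtain ⟨N, hNdef⟩ : ∃ N, N = max N1 (max N2 N3) := ⟨_, rfl⟩
  have hNN1 : N1 ≤ N := by rw [hNdef]; exact le_max_left _ _
  have hNN2 : N2 ≤ N := by rw [hNdef]; exact (le_max_left _ _).trans (le_max_right _ _)
  have hNN3 : N3 ≤ N := by rw [hNdef]; exact (le_max_right _ _).trans (le_max_right _ _)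
  have hb1 := hN1 N hNN1
  have hb2 := hN2 N hNN2
  have hb3 : 3 * (x * (k + 1) + Real.log 4 + Real.log 3) < ε * (N + 1) := by
    rw [div_lt_iff₀ hε] at hN3
    have h2 : (N3 : ℝ) ≤ N := by exact_mod_cast hNN3
    nlinarith
  clear hN1 hN2 hN3 hNN1 hNN2 hNN3 hNdef
  rw [add_zero] at hb1
  have hDN : 36 * (M' ^ (k + 1) + K * (N + 1)) ≤ Real.exp (ℓ * N) / 4 := by
    have h2 := Real.exp_le_exp.2 hb1
    rw [Real.exp_log (by positivity)] at h2
    have h3 : 36 * (M' ^ (k + 1) + K * (N + 1)) ≤ 36 * ((M' ^ (k + 1) + K) * (N + 1)) := by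
      have : 0 ≤ M' ^ (k + 1) * N := by positivity
      nlinarith
    linarith
  -- the target
  obtain ⟨lam, hlam⟩ : ∃ lam : ℝ, lam = Real.exp (ℓ * N) := ⟨_, rfl⟩
  have hlam0 : 0 < lam := by rw [hlam]; exact Real.exp_pos _
  rw [← hlam] at hDN
  set g : ℝ[X] := C lam * (s ^ N + G ^ N) with hg
  have hgd : g.natDegree ≤ k * (N + 1) := by
    refine (natDegree_C_mul_le _ _).trans ((natDegree_add_le _ _).trans (max_le ?_ ?_))
    · refine natDegree_pow_le.trans ?_
      nlinarith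
    · refine natDegree_pow_le.trans ?_
      rw [hdeg]
      nlinarith
  have hG00 : G ≠ 0 := by
    intro h; rw [h] at hdeg; simp at hdeg; omega
  have hTd : (G ^ N * X ^ (k + 1)).natDegree = k * (N + 1) + 1 := by
    rw [natDegree_mul (pow_ne_zero _ hG00) (pow_ne_zero _ X_ne_zero), natDegree_pow,
      natDegree_X_pow, hdeg]
    ring
  have hTl : 1 ≤ |(G ^ N * X ^ (k + 1)).leadingCoeff| := by
    rw [leadingCoeff_mul, leadingCoeff_pow, leadingCoeff_X_pow, mul_one, abs_pow]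
    exact one_le_pow₀ hlead
  have hTb : ∀ z : ℂ, ‖z‖ = 1 → ‖ev (G ^ N * X ^ (k + 1)) z‖ ≤ M' ^ (k + 1) * E z ^ N := by
    intro z hz
    rw [ev_mul, ev_pow, ev_pow, norm_mul, norm_pow, norm_pow, mul_comm]
    refine mul_le_mul ?_ (pow_le_pow_left₀ (norm_nonneg _) (le_max_right _ _) _) (by positivity)
      (by positivity)
    refine pow_le_pow_left₀ (norm_nonneg _) ((hMb z hz).trans ?_) _
    rw [hM']; exact le_max_left _ _
  obtain ⟨f, hf, hf0, hfb⟩ := approx hTd hTl (hcov N) hTb g hgd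
  obtain ⟨n, hn⟩ : ∃ n, n = k * (N + 1) + 1 := ⟨_, rfl⟩
  rw [← hn] at hf hf0 hfb
  have hn0 : 0 < n := by rw [hn]; exact Nat.succ_pos _
  obtain ⟨⟨α, hα, hαz⟩, hPl, hPd⟩ := alg2 hn0 hf hf0
  refine ⟨α, hα, ?_⟩
  have hnr : (0 : ℝ) < n := by exact_mod_cast hn0
  have hnN : (n : ℝ) = k * (N + 1) + 1 := by rw [hn]; push_cast; ring
  have hN0 : (0 : ℝ) ≤ N := Nat.cast_nonneg N
  have hk1 : (1 : ℝ) ≤ k := by exact_mod_cast hk
  have hnN1 : (N : ℝ) + 1 ≤ n := by rw [hnN]; nlinarith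
  -- the error
  have herr : ∀ z : ℂ, ‖z‖ = 1 → ‖ev (ri (qq n f)) z - ev g z‖ ≤ lam / 4 * E z ^ N := by
    intro z hz
    refine (hfb z hz).trans ?_
    have e : 36 * (M' ^ (k + 1) * E z ^ N + K * (N + 1) * E z ^ N) =
        36 * (M' ^ (k + 1) + K * (N + 1)) * E z ^ N := by ring
    rw [e]
    exact mul_le_mul_of_nonneg_right hDN (pow_nonneg (hEpos z).le _)
  have hgv : ∀ z : ℂ, ‖ev g z‖ = lam * ‖ev s z ^ N + ev G z ^ N‖ := by
    intro z
    rw [hg, ev_mul, ev_C, norm_mul, Complex.norm_real, Real.norm_of_nonneg hlam0.le, ev_add,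
      ev_pow, ev_pow]
  have hq0 : qq n f ≠ 0 := by
    intro h
    have := qq_natDegree hn0 hf
    rw [h, natDegree_zero] at this
    omega
  -- upper bound
  have hup : ∀ z : ℂ, ‖z‖ = 1 → ‖ev (ri (qq n f)) z‖ ≤ 3 * lam * E z ^ N := by
    intro z hz
    have e1 : ev (ri (qq n f)) z = ev g z + (ev (ri (qq n f)) z - ev g z) := by ring
    have e2 : ‖ev g z‖ ≤ 2 * lam * E z ^ N := by
      rw [hgv]
      have h3 : ‖ev s z ^ N + ev G z ^ N‖ ≤ E z ^ N + E z ^ N := by
        refine (norm_add_le _ _).trans (add_le_add ?_ ?_)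
        · rw [norm_pow]
          exact pow_le_pow_left₀ (norm_nonneg _) (le_max_left _ _) _
        · rw [norm_pow]
          exact pow_le_pow_left₀ (norm_nonneg _) (le_max_right _ _) _
      nlinarith
    rw [e1]
    refine (norm_add_le _ _).trans ?_
    have e3 := herr z hz
    have e4 : 0 ≤ E z ^ N := pow_nonneg (hEpos z).le _
    nlinarith
  have hlogup : Real.log ((PP n f).map (Int.castRingHom ℂ)).mahlerMeasure ≤
      Real.log 3 + N * (x * k) := by
    have hUc : Continuous (fun z => 3 * lam * E z ^ N) := continuous_const.mul (hEc.pow N)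
    have hmah := hM _ hq0 (fun z => 3 * lam * E z ^ N) hUc.continuousOn
      (fun z _ => mul_pos (by positivity) (pow_pos (hEpos z) N)) hup
    have hav : Real.circleAverage (fun z => Real.log (3 * lam * E z ^ N)) 0 1 =
        Real.log (3 * lam) + N * I := by
      have e1 : (fun z => Real.log (3 * lam * E z ^ N)) =
          fun z => Real.log (3 * lam) + (N : ℝ) • Real.log (E z) := by
        funext z
        rw [Real.log_mul (by positivity) (pow_pos (hEpos z) N).ne', Real.log_pow, smul_eq_mul]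
      rw [e1, Real.circleAverage_fun_add (f₁ := fun _ => Real.log (3 * lam))
        (f₂ := fun z => (N : ℝ) • Real.log (E z)) (circleIntegrable_const _ _ _)
        ((hElc.const_smul (N : ℝ)).continuousOn.circleIntegrable (by norm_num)),
        Real.circleAverage_const, Real.circleAverage_fun_smul, smul_eq_mul, hI]
    rw [hav, Real.log_mul (by norm_num) hlam0.ne', hlam, Real.log_exp] at hmah
    refine hmah.trans (le_of_eq ?_)
    rw [hℓ]; ring
  -- lower bound
  have hlow : ∀ θ ∈ Ioc 0 (2 * π), θ ∉ S → N * (ℓ + Real.log (E (circleMap 0 1 θ))) - Real.log 4 ≤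
      Real.log ‖((PP n f).map (Int.castRingHom ℂ)).eval (circleMap 0 1 θ)‖ := by
    intro θ hθ hθS
    obtain ⟨z, hz⟩ : ∃ z, z = circleMap 0 1 θ := ⟨_, rfl⟩
    have hz1 : ‖z‖ = 1 := by rw [hz]; simp
    have hgood : min ‖ev s z‖ ‖ev G z‖ ≤ (1 - κ) * max ‖ev s z‖ ‖ev G z‖ := by
      by_contra hcon
      apply hθS
      rw [hSdef, hz] at *
      exact ⟨hθ, not_le.1 hcon⟩
    rw [eval_PP, ← hz]
    have e1 : E z ^ N / 2 ≤ ‖ev s z ^ N + ev G z ^ N‖ := by
      have hκ1' : 0 ≤ 1 - κ := by linarith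
      have h5 : min ‖ev s z‖ ‖ev G z‖ ^ N ≤ 1 / 2 * E z ^ N := by
        have h6 : min ‖ev s z‖ ‖ev G z‖ ^ N ≤ ((1 - κ) * max ‖ev s z‖ ‖ev G z‖) ^ N :=
          pow_le_pow_left₀ (le_min (norm_nonneg _) (norm_nonneg _)) hgood _
        rw [mul_pow] at h6
        exact h6.trans (mul_le_mul_of_nonneg_right hb2 (pow_nonneg (hEpos z).le _))
      rcases le_total ‖ev s z‖ ‖ev G z‖ with h | h
      · have h7 : E z = ‖ev G z‖ := max_eq_right h
        rw [min_eq_left h] at h5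
        have h8 : ‖ev G z ^ N‖ - ‖ev s z ^ N‖ ≤ ‖ev s z ^ N + ev G z ^ N‖ := by
          have := norm_sub_norm_le (ev G z ^ N) (-(ev s z ^ N))
          rw [norm_neg, sub_neg_eq_add, add_comm] at this
          exact this
        rw [norm_pow, norm_pow, ← h7] at h8
        linarith
      · have h7 : E z = ‖ev s z‖ := max_eq_left h
        rw [min_eq_right h] at h5
        have h8 : ‖ev s z ^ N‖ - ‖ev G z ^ N‖ ≤ ‖ev s z ^ N + ev G z ^ N‖ := by
          have := norm_sub_norm_le (ev s z ^ N) (-(ev G z ^ N))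
          rw [norm_neg, sub_neg_eq_add] at this
          exact this
        rw [norm_pow, norm_pow, ← h7] at h8
        linarith
    have e2 : lam / 4 * E z ^ N ≤ ‖ev (ri (qq n f)) z‖ := by
      have h5 := herr z hz1
      have h6 : ‖ev g z‖ - ‖ev (ri (qq n f)) z - ev g z‖ ≤ ‖ev (ri (qq n f)) z‖ := by
        have := norm_sub_norm_le (ev g z) (-(ev (ri (qq n f)) z - ev g z))
        rw [norm_neg, sub_neg_eq_add, add_sub_cancel] at this
        exact this
      rw [hgv] at h6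
      have h7 := mul_le_mul_of_nonneg_left e1 hlam0.le
      linarith
    have e3 : 0 < lam / 4 * E z ^ N := mul_pos (by positivity) (pow_pos (hEpos z) N)
    have e4 := Real.log_le_log e3 e2
    rw [Real.log_mul (by positivity) (pow_pos (hEpos z) N).ne', Real.log_div hlam0.ne' (by norm_num),
      Real.log_pow, hlam, Real.log_exp] at e4
    linarith
  have hJ := hun S hSm (hSI.trans Ioc_subset_Icc_self) hSv1 _ hPl
  have hUcont : Continuous (fun θ : ℝ => N * (ℓ + Real.log (E (circleMap 0 1 θ)))) :=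
    continuous_const.mul (continuous_const.add (hElc.comp (continuous_circleMap 0 1)))
  have hlb := mahler_lb hPd hSm hSI hJ hSr hUcont (CU := N * CE) (c0 := Real.log 4)
    (fun θ => mul_le_mul_of_nonneg_left (hCE θ) hN0) (by positivity)
    (Real.log_nonneg (by norm_num)) hlow
  have hint : ∫ θ in (0 : ℝ)..(2 * π), N * (ℓ + Real.log (E (circleMap 0 1 θ))) =
      2 * π * (N * (x * k)) := by
    have e1 : Real.circleAverage (fun z => N * (ℓ + Real.log (E z))) 0 1 = N * (ℓ + I) := by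
      have e2 : (fun z => N * (ℓ + Real.log (E z))) =
          fun z => N * ℓ + (N : ℝ) • Real.log (E z) := by
        funext z
        rw [smul_eq_mul]; ring
      rw [e2, Real.circleAverage_fun_add (f₁ := fun _ => (N : ℝ) * ℓ)
        (f₂ := fun z => (N : ℝ) • Real.log (E z)) (circleIntegrable_const _ _ _)
        ((hElc.const_smul (N : ℝ)).continuousOn.circleIntegrable (by norm_num)),
        Real.circleAverage_const, Real.circleAverage_fun_smul, smul_eq_mul, hI]
      ring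
    rw [Real.circleAverage_def, smul_eq_mul] at e1
    have h2π : (2 * π) ≠ 0 := by positivity
    have e3 : ∫ θ in (0 : ℝ)..(2 * π), N * (ℓ + Real.log (E (circleMap 0 1 θ))) =
        2 * π * (N * (ℓ + I)) := by
      rw [← e1]
      field_simp
    rw [e3, hℓ]
    ring
  rw [hint] at hlb
  -- the conclusion
  obtain ⟨Y, hY⟩ : ∃ Y, Y = Real.log ((PP n f).map (Int.castRingHom ℂ)).mahlerMeasure := ⟨_, rfl⟩
  rw [← hY] at hαz hlb hlogup
  have hπ : 3 < π := Real.pi_gt_three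
  have hl4 : 0 ≤ Real.log 4 := Real.log_nonneg (by norm_num)
  have hl3 : 0 ≤ Real.log 3 := Real.log_nonneg (by norm_num)
  have hNk : (N : ℝ) * k = n - (k + 1) := by rw [hnN]; ring
  have hNx : N * (x * k) = x * n - x * (k + 1) := by
    have : N * (x * k) = x * (N * k) := by ring
    rw [this, hNk]; ring
  have hlow2 : x * n - x * (k + 1) - Real.log 4 - ε / 3 * n ≤ Y := by
    have h5 : δ * (N * CE) ≤ ε * n := by
      have h6 : δ * (N * CE) = N * (δ * CE) := by ring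
      rw [h6]
      have h7 : N * (δ * CE) ≤ N * ε := mul_le_mul_of_nonneg_left hδCE hN0
      nlinarith
    rw [hNx] at hlb
    push_cast at hlb
    have h8 : 2 * π * (x * n - x * (k + 1) - Real.log 4) - 2 * (ε * n) ≤ 2 * π * Y := by
      nlinarith
    have h9 : 2 * (ε * n) ≤ 2 * π * (ε / 3 * n) := by
      have : 0 < ε * n := by positivity
      nlinarith
    have h10 : 2 * π * (x * n - x * (k + 1) - Real.log 4 - ε / 3 * n) ≤ 2 * π * Y := by linarith
    exact le_of_mul_le_mul_left h10 (by positivity)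
  have hb4 : 3 * (x * (k + 1) + Real.log 4 + Real.log 3) < ε * n := by
    have := mul_le_mul_of_nonneg_left hnN1 hε.le
    linarith
  have hxk : 0 ≤ x * (k + 1) := by positivity
  rw [hαz, abs_lt]
  constructor
  · rw [lt_sub_iff_add_lt, lt_div_iff₀ hnr]
    nlinarith
  · rw [sub_lt_iff_lt_add, div_lt_iff₀ hnr]
    nlinarith

end H38.ZV
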