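import Pool.Agent.H38.ZV.Den4

/-! The density from a successful check. -/

open Polynomial Pool.H1.ZU H38.ZZ

namespace H38.ZV

/-- the theorem from a successful check; the proof is that of `Pool.H1.ZU.final` -/
theorem finalD (n w u k P a b c uA uC ug e0 v : ℕ) (es g : List ℕ) (L : ℝ) (ha : 0 < a)
    (hk : 0 < k) (habc : a + b + 4 * c ≤ k) (hg : chkG P ug k g = true)
    (hr : runAll n w u k P a b c uA uC ug e0 v es g = true)
    (hL : (e0 + bnd v es - 2 * P) * Real.log 2 < 2 * L * k) (x : ℝ) (hx : L ≤ x) (hx0 : 0 < x)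
    (ε : ℝ) (hε : 0 < ε) :
    ∃ α : ℂ, IsAlgebraic ℚ α ∧ |zzHeight α - x| < ε := by
  obtain ⟨g1, g2, g3, g4, g5, g6⟩ := chkG_spec P ug k g hg
  have hQ : 0 < 2 ^ P := by positivity
  obtain ⟨q1, q2, q3, q4, q5, q6⟩ := Pool.H2.ZU.gd (sg (2 ^ ug) g) k (2 ^ P) hQ
    (by rw [sg_length, g1]) g3 g4 g5 g6
  set G := Pool.H2.ZU.gp (2 ^ P) (sg (2 ^ ug) g) with hG
  have hQr : (0 : ℝ) < 2 ^ P := by positivity
  have hs : ∀ z : ℂ, evL (sL P a b c) z = 2 ^ P * ev (ri (X ^ a * (X - 1) ^ b * N10 ^ c)) z := by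
    intro z
    rw [Pool.Agent.H14.ZU.ev_ri, evL_sL]
    simp only [map_mul, map_pow, map_sub, aeval_X, map_one, N10, map_add, map_ofNat]
    ring
  have hsn : ∀ z : ℂ, ‖evL (sL P a b c) z‖ ^ 2 =
      (2 ^ P) ^ 2 * ‖ev (ri (X ^ a * (X - 1) ^ b * N10 ^ c)) z‖ ^ 2 := by
    intro z
    rw [hs, norm_mul, mul_pow, norm_pow]; norm_num
  have hgn : ∀ z : ℂ, ‖evL (sg (2 ^ ug) g) (z - z ^ 2)‖ ^ 2 = (2 ^ P) ^ 2 * ‖ev G z‖ ^ 2 := by
    intro z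
    rw [q6 z, norm_div, div_pow]
    have : ‖((2 ^ P : ℕ) : ℂ)‖ = 2 ^ P := by
      rw [Complex.norm_natCast]; push_cast; rfl
    rw [this]
    field_simp
  have hpos0 : ∀ z : ℂ, 0 < ‖ev (ri (X ^ a * (X - 1) ^ b * N10 ^ c)) z‖ ^ 2 + ‖ev G z‖ ^ 2 := by
    intro z
    by_contra hcon
    have h1 : ‖ev (ri (X ^ a * (X - 1) ^ b * N10 ^ c)) z‖ ^ 2 = 0 := by
      nlinarith [sq_nonneg ‖ev (ri (X ^ a * (X - 1) ^ b * N10 ^ c)) z‖, sq_nonneg ‖ev G z‖]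
    have h2 : ‖ev G z‖ ^ 2 = 0 := by
      nlinarith [sq_nonneg ‖ev (ri (X ^ a * (X - 1) ^ b * N10 ^ c)) z‖, sq_nonneg ‖ev G z‖]
    exact Pool.Agent.H14.ZU.no_common (a := a) (b := b) (c := c) q3 q4 q5 z
      (norm_eq_zero.mp (pow_eq_zero_iff (two_ne_zero) |>.mp h1))
      (norm_eq_zero.mp (pow_eq_zero_iff (two_ne_zero) |>.mp h2))
  have hpos : ∀ z : ℂ, ‖z‖ = 1 → 0 < ‖evL (sL P a b c) z‖ ^ 2 +
      ‖evL (sg (2 ^ ug) g) (z - z ^ 2)‖ ^ 2 := by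
    intro z _
    rw [hsn, hgn, ← mul_add]
    exact mul_pos (by positivity) (hpos0 z)
  have hrun := runAll_spec n w u k P a b c uA uC ug e0 v es g g1 g2 hpos hr
  have hlog : ∀ z : ℂ, Real.log (‖evL (sL P a b c) z‖ ^ 2 +
      ‖evL (sg (2 ^ ug) g) (z - z ^ 2)‖ ^ 2) = 2 * P * Real.log 2 +
      Real.log (‖ev (ri (X ^ a * (X - 1) ^ b * N10 ^ c)) z‖ ^ 2 + ‖ev G z‖ ^ 2) := by
    intro z
    rw [hsn, hgn, ← mul_add, Real.log_mul (by positivity) (hpos0 z).ne', ← pow_mul, Real.log_pow]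
    push_cast; ring
  have hci : CircleIntegrable (fun z => Real.log (‖ev (ri (X ^ a * (X - 1) ^ b * N10 ^ c)) z‖ ^ 2 +
      ‖ev G z‖ ^ 2)) 0 1 := by
    refine ContinuousOn.circleIntegrable' (Continuous.continuousOn ?_)
    refine Continuous.log ?_ (fun z => (hpos0 z).ne')
    exact ((Pool.Agent.H14.ZU.ev_cont _).norm.pow 2).add ((Pool.Agent.H14.ZU.ev_cont _).norm.pow 2)
  have hca := Real.circleAverage_add (c := (0 : ℂ)) (R := 1)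
    (f₁ := fun _ : ℂ => (2 * P * Real.log 2 : ℝ))
    (f₂ := fun z => Real.log (‖ev (ri (X ^ a * (X - 1) ^ b * N10 ^ c)) z‖ ^ 2 + ‖ev G z‖ ^ 2))
    (circleIntegrable_const _ _ _) hci
  rw [Real.circleAverage_const] at hca
  simp only [hlog] at hrun
  have hca' : Real.circleAverage (fun z => 2 * P * Real.log 2 +
      Real.log (‖ev (ri (X ^ a * (X - 1) ^ b * N10 ^ c)) z‖ ^ 2 + ‖ev G z‖ ^ 2)) 0 1 = _ := hca
  rw [hca'] at hrun
  refine dense_aux (COV Pool.H2.ZU.RES) Pool.Agent.H14.ZU.MAH a b c k ha hk habc G q1 q2 q3 q4 q5 L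
    ?_ x hx hx0 ε hε
  linarith

end H38.ZV
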