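import Pool.Agent.H38.ZV.Den5
import Pool.Agent.H38.ZW.Run

/-!
# The values of the Zhang-Zagier height are dense in `[0.25069, ∞)`
-/

open Polynomial H38.ZZ

namespace H38.ZV

open Pool.H1.ZU in
theorem dense_num (x : ℝ) (hx : 25069 / 100000 ≤ x) (ε : ℝ) (hε : 0 < ε) :
    ∃ α : ℂ, IsAlgebraic ℚ α ∧ |zzHeight α - x| < ε := by
  refine finalD 12 5632 2800 700 620 252 196 45 1449 1449 1137 89 2800
    [1151, 2015, 2356, 1858, 2738, 2713, 2399, 2636, 2614, 2774, 2680, 2688, 2730] H38.ZW.gL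
    (25069 / 100000) (by norm_num) (by norm_num) (by norm_num) H38.ZW.gL_chk H38.ZW.run ?_ x hx
    (by linarith) ε hε
  have h := Real.log_two_lt_d9
  simp only [bnd]
  norm_num
  linarith

end H38.ZV
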