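import Pool.Agent.H38.ZV.Val

/-!
# One value of the height serves only finitely many degrees
-/

open Polynomial

namespace H38.ZV

/-- the algebraic numbers -/
abbrev KQ : Type := AlgebraicClosure ℚ

instance isAlgKQ : Algebra.IsAlgebraic ℚ KQ := by
  constructor
  intro x
  obtain ⟨f, hf0, hf⟩ := (AlgebraicClosure.isAlgebraic ℚ).isAlgebraic x
  refine ⟨f, hf0, ?_⟩
  rw [aeval_def] at hf ⊢
  rw [← hf]
  congr 1

/-- into the complex numbers -/
noncomputable def iC : KQ →ₐ[ℚ] ℂ := IsAlgClosed.lift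

/-- into the algebraic closure of the `2`-adic numbers -/
noncomputable def i2 : KQ →ₐ[ℚ] K2 := IsAlgClosed.lift

theorem range_iC {x : ℂ} (hx : IsAlgebraic ℚ x) : ∃ y : KQ, iC y = x := by
  obtain ⟨f, hf0, hf⟩ := hx
  have hs : (f.map (algebraMap ℚ KQ)).Splits := IsAlgClosed.splits _
  have h1 : (f.map (algebraMap ℚ KQ)) ≠ 0 := (Polynomial.map_ne_zero_iff
    (algebraMap ℚ KQ).injective).2 hf0
  have h2 : ((f.map (algebraMap ℚ KQ)).map (iC : KQ →+* ℂ)).IsRoot x := by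
    rw [Polynomial.map_map]
    have : (iC : KQ →+* ℂ).comp (algebraMap ℚ KQ) = algebraMap ℚ ℂ := iC.comp_algebraMap
    rw [this, IsRoot.def, eval_map_algebraMap]
    exact hf
  obtain ⟨y, hy⟩ := hs.mem_range_of_isRoot h1 h2
  exact ⟨y, hy⟩

/-- complex conjugation on `KQ` -/
theorem conj_ex (ζ : KQ) : ∃ y : KQ, iC y = (starRingEnd ℂ) (iC ζ) := by
  apply range_iC
  have h : IsAlgebraic ℚ (iC ζ) := by
    have : IsAlgebraic ℚ ζ := Algebra.IsAlgebraic.isAlgebraic ζ
    exact this.algHom iC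
  obtain ⟨f, hf0, hf⟩ := h
  refine ⟨f, hf0, ?_⟩
  have h2 : (starRingEnd ℂ) (aeval (iC ζ) f) = aeval ((starRingEnd ℂ) (iC ζ)) f := by
    rw [aeval_def, aeval_def, hom_eval₂]
    congr 1
    exact Subsingleton.elim _ _
  rw [← h2, hf, map_zero]

/-- the conjugate -/
noncomputable def cc (ζ : KQ) : KQ := (conj_ex ζ).choose

theorem iC_cc (ζ : KQ) : iC (cc ζ) = (starRingEnd ℂ) (iC ζ) := (conj_ex ζ).choose_spec

theorem aeval_iC (p : ℤ[X]) (ζ : KQ) : aeval (iC ζ) p = iC (aeval ζ p) := by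
  rw [aeval_def, aeval_def]
  have := hom_eval₂ p (algebraMap ℤ KQ) (iC : KQ →+* ℂ) ζ
  rw [show iC (eval₂ (algebraMap ℤ KQ) ζ p) = (iC : KQ →+* ℂ) (eval₂ (algebraMap ℤ KQ) ζ p) from rfl,
    this]
  congr 1
  exact Subsingleton.elim _ _

theorem aeval_i2 (p : ℤ[X]) (ζ : KQ) : aeval (i2 ζ) p = i2 (aeval ζ p) := by
  rw [aeval_def, aeval_def]
  have := hom_eval₂ p (algebraMap ℤ KQ) (i2 : KQ →+* K2) ζ
  rw [show i2 (eval₂ (algebraMap ℤ KQ) ζ p) = (i2 : KQ →+* K2) (eval₂ (algebraMap ℤ KQ) ζ p) from rfl,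
    this]
  congr 1
  exact Subsingleton.elim _ _

theorem aeval_cc {p : ℤ[X]} {ζ : KQ} (h : aeval ζ p = 0) : aeval (cc ζ) p = 0 := by
  have h1 : iC (aeval (cc ζ) p) = 0 := by
    rw [← aeval_iC, iC_cc]
    have h2 : (starRingEnd ℂ) (aeval (iC ζ) p) = aeval ((starRingEnd ℂ) (iC ζ)) p := by
      rw [aeval_def, aeval_def, hom_eval₂]
      congr 1
      exact Subsingleton.elim _ _
    rw [← h2, aeval_iC, h, map_zero, map_zero]
  exact (map_eq_zero iC).1 h1

/-- the square of the Mahler measure as an algebraic number -/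
noncomputable def gg (ζ : KQ) : KQ := by
  classical
  exact if 1 < ‖iC ζ‖ then ζ * cc ζ else 1

theorem iC_gg (ζ : KQ) : iC (gg ζ) = (((max 1 ‖iC ζ‖) ^ 2 : ℝ) : ℂ) := by
  unfold gg
  split_ifs with h
  · rw [map_mul, iC_cc, Complex.mul_conj, Complex.normSq_eq_norm_sq, max_eq_right h.le]
  · rw [map_one, max_eq_left (not_lt.1 h)]
    norm_num

theorem roots_root {p : ℤ[X]} {ζ : KQ} (h : ζ ∈ (p.map (Int.castRingHom KQ)).roots) :
    aeval ζ p = 0 := by
  have := isRoot_of_mem_roots h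
  rw [IsRoot.def, eval_map] at this
  exact this

theorem mahler_sq (p : ℤ[X]) : (((p.map (Int.castRingHom ℂ)).mahlerMeasure ^ 2 : ℝ) : ℂ) =
    iC ((p.leadingCoeff : KQ) ^ 2 * ((p.map (Int.castRingHom KQ)).roots.map gg).prod) := by
  have hr : (p.map (Int.castRingHom ℂ)).roots = (p.map (Int.castRingHom KQ)).roots.map iC := by
    have hs : (p.map (Int.castRingHom KQ)).Splits := IsAlgClosed.splits _
    have h := hs.roots_map (iC : KQ →+* ℂ)
    rw [Polynomial.map_map] at h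
    have e : (iC : KQ →+* ℂ).comp (Int.castRingHom KQ) = Int.castRingHom ℂ :=
      Subsingleton.elim _ _
    rw [e] at h
    exact h
  rw [mahlerMeasure_eq_leadingCoeff_mul_prod_roots, hr, Multiset.map_map,
    leadingCoeff_map_of_injective (RingHom.injective_int _)]
  have hprod : ∀ s : Multiset KQ, (((s.map ((fun a : ℂ => max 1 ‖a‖) ∘ iC)).prod ^ 2 : ℝ) : ℂ) =
      iC ((s.map gg).prod) := by
    intro s
    induction s using Multiset.induction_on with
    | empty => simp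
    | cons a s ih =>
      rw [Multiset.map_cons, Multiset.prod_cons, Multiset.map_cons, Multiset.prod_cons, map_mul,
        iC_gg, ← ih]
      push_cast
      simp only [Function.comp_apply]
      ring
  rw [map_mul, ← hprod, mul_pow]
  push_cast
  congr 1
  have e1 : ‖(Int.castRingHom ℂ) p.leadingCoeff‖ ^ 2 = (p.leadingCoeff : ℝ) ^ 2 := by
    rw [eq_intCast, Complex.norm_intCast, sq_abs]
  have e2 : ((‖(Int.castRingHom ℂ) p.leadingCoeff‖ : ℝ) : ℂ) ^ 2 = ((p.leadingCoeff : ℝ) : ℂ) ^ 2 := by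
    exact_mod_cast congrArg (fun x : ℝ => (x : ℂ)) e1
  rw [e2, map_pow, map_intCast]
  push_cast
  rfl

end H38.ZV
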