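import Pool.Agent.H38.ZV.Key
import Pool.Agent.H38.ZV.Pol
import Pool.Agent.H1.ZU.Fin

/-!
# Infinitely many different values of the height
-/

open Polynomial H38.ZZ Pool.H1.ZU

namespace H38.ZV

/-- from the covering to the small polynomial in the residue class -/
theorem cov_qq {n : ℕ} {B : ℂ → ℝ} (hC : Cov n B) : ∃ f : ℤ[X], f.natDegree ≤ n ∧
    ∀ z : ℂ, ‖z‖ = 1 → ‖ev (ri (qq n f)) z‖ ≤ 36 * B z := by
  have hd : (C (-(1 / 36 : ℝ)) * ri (2 * X ^ n + 3)).natDegree ≤ n := by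
    refine (natDegree_C_mul_le _ _).trans ?_
    rw [ri_natDegree]
    refine (natDegree_add_le _ _).trans (max_le ?_ ?_)
    · exact (natDegree_mul_le).trans (by
        rw [natDegree_X_pow]
        have : (2 : ℤ[X]).natDegree = 0 := natDegree_ofNat 2
        omega)
    · have : (3 : ℤ[X]).natDegree = 0 := natDegree_ofNat 3
      omega
  obtain ⟨f, hf, hb⟩ := hC _ hd
  refine ⟨f, hf, fun z hz => ?_⟩
  have e : ri (qq n f) = C (-36) * (C (-(1 / 36 : ℝ)) * ri (2 * X ^ n + 3) - ri f) := by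
    have e36 : ri 36 = C 36 := by
      unfold ri
      rw [show (36 : ℤ[X]) = C 36 from rfl, map_C]
      norm_num
    unfold qq
    rw [ri_add, ri_mul 36 f, e36, mul_sub, ← mul_assoc, ← C_mul]
    norm_num
  rw [e, ev_mul, norm_mul, ev_C, Complex.norm_real]
  have h := hb z hz
  have : ‖(-36 : ℝ)‖ = 36 := by norm_num
  rw [this]
  linarith

theorem growth_ev (C ε c : ℝ) (hC : 0 < C) (hε : 0 < ε) :
    ∃ N0 : ℕ, ∀ N : ℕ, N0 ≤ N → Real.log (C * (N + 1)) ≤ ε * N + c := by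
  have h1 : Filter.Tendsto (fun N : ℕ => ε / 2 * (N : ℝ) + (c - (ε / 2 - 1 - Real.log (ε / (2 * C)))))
      Filter.atTop Filter.atTop := by
    apply Filter.tendsto_atTop_add_const_right
    exact Filter.Tendsto.const_mul_atTop (by linarith) tendsto_natCast_atTop_atTop
  obtain ⟨N0, hN0⟩ := Filter.eventually_atTop.1 (h1.eventually_ge_atTop 0)
  refine ⟨N0, fun N hN => ?_⟩
  have h2 := hN0 N hN
  have hxp : 0 < C * ((N : ℝ) + 1) := by positivity
  have hdp : 0 < ε / (2 * C) := by positivity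
  have h3 : Real.log (ε / (2 * C) * (C * ((N : ℝ) + 1))) ≤ ε / (2 * C) * (C * ((N : ℝ) + 1)) - 1 :=
    Real.log_le_sub_one_of_pos (by positivity)
  rw [Real.log_mul hdp.ne' hxp.ne'] at h3
  have h4 : ε / (2 * C) * (C * ((N : ℝ) + 1)) = ε / 2 * N + ε / 2 := by
    field_simp
  linarith

/-- **Infinitely many values.** -/
theorem INFV (hC : S_COV) (hM : S_MAH) (a b c k : ℕ) (hk : 0 < k) (habc : a + b + 4 * c ≤ k)
    (G : ℝ[X]) (hdeg : G.natDegree = k) (hlead : 1 ≤ |G.leadingCoeff|) (h0 : 1 ≤ |G.eval 0|)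
    (h1 : 1 ≤ |G.eval 1|) (hb : 1 ≤ ‖aeval b1 G‖ * ‖aeval b3 G‖) (L : ℝ)
    (hL : Real.circleAverage (fun z => Real.log (‖ev (ri (X ^ a * (X - 1) ^ b * N10 ^ c)) z‖ ^ 2 +
      ‖ev G z‖ ^ 2)) 0 1 < 2 * L * k) :
    Set.Infinite {x : ℝ | x ≤ L ∧ ∃ α : ℂ, IsAlgebraic ℚ α ∧ zzHeight α = x} := by
  set s : ℝ[X] := ri (X ^ a * (X - 1) ^ b * N10 ^ c) with hs
  set W : ℂ → ℝ := fun z => ‖ev s z‖ ^ 2 + ‖ev G z‖ ^ 2 with hW
  set E : ℂ → ℝ := fun z => Real.sqrt (W z) with hE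
  have hWc : Continuous W := by
    have e1 := Pool.Agent.H14.ZU.ev_cont s
    have e2 := Pool.Agent.H14.ZU.ev_cont G
    simp only [hW]
    fun_prop
  have hW0 : ∀ z, 0 ≤ W z := fun z => by simp only [hW]; positivity
  have hWpos : ∀ z : ℂ, 0 < W z := by
    intro z
    rcases (hW0 z).lt_or_eq with h | h
    · exact h
    · exfalso
      have e1 : ‖ev s z‖ ^ 2 = 0 := by
        have := sq_nonneg ‖ev s z‖
        have := sq_nonneg ‖ev G z‖
        simp only [hW] at h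
        linarith
      have e2 : ‖ev G z‖ ^ 2 = 0 := by
        have := sq_nonneg ‖ev s z‖
        have := sq_nonneg ‖ev G z‖
        simp only [hW] at h
        linarith
      have e1' : ev s z = 0 := by simpa using e1
      have e2' : ev G z = 0 := by simpa using e2
      exact Pool.Agent.H14.ZU.no_common h0 h1 hb z e1' e2'
  have hEc : Continuous E := hWc.sqrt
  have hEpos : ∀ z : ℂ, 0 < E z := fun z => Real.sqrt_pos.2 (hWpos z)
  have hsE : ∀ z : ℂ, ‖z‖ = 1 → ‖ev s z‖ ≤ E z := by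
    intro z _
    apply Real.le_sqrt_of_sq_le
    simp only [hW]
    have := sq_nonneg ‖ev G z‖
    linarith
  have hGE : ∀ z : ℂ, ‖z‖ = 1 → ‖ev G z‖ ≤ E z := by
    intro z _
    apply Real.le_sqrt_of_sq_le
    simp only [hW]
    have := sq_nonneg ‖ev s z‖
    linarith
  obtain ⟨K, hK, hcov⟩ := hC a b c k hk habc G hdeg hlead h0 h1 hb E hsE hGE
  set I : ℝ := Real.circleAverage (fun z => Real.log (W z)) 0 1 with hI
  have hIL : I < 2 * L * k := hL
  set ε : ℝ := L * k - I / 2 with hε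
  have hεpos : 0 < ε := by rw [hε]; linarith
  obtain ⟨N0, hN0⟩ := growth_ev (36 * K) ε (L * k) (by positivity) hεpos
  have hWlogc : Continuous (fun z => Real.log (W z)) := hWc.log (fun z => (hWpos z).ne')
  -- for every large `N` a number
  have hex : ∀ N : ℕ, N0 ≤ N → ∃ (α : ℂ) (p : ℤ[X]), IsAlgebraic ℚ α ∧ zzHeight α ≤ L ∧
      Good (k * (N + 1)) p ∧ (p.map (Int.castRingHom ℂ)).mahlerMeasure =
        Real.exp ((k * (N + 1) : ℕ) * zzHeight α) := by
    intro N hN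
    have hn : 0 < k * (N + 1) := Nat.mul_pos hk (Nat.succ_pos N)
    obtain ⟨f, hf, hfb⟩ := cov_qq (hcov N)
    refine alg hn hf ?_
    set D : ℝ := 36 * K * (N + 1) with hD
    have hDpos : 0 < D := by positivity
    have hq0 : qq (k * (N + 1)) f ≠ 0 := by
      intro h
      have := qq_natDegree hn hf
      rw [h, natDegree_zero] at this
      omega
    have hU : ∀ z : ℂ, ‖z‖ = 1 → ‖ev (ri (qq (k * (N + 1)) f)) z‖ ≤ D * E z ^ N := by
      intro z hz
      refine (hfb z hz).trans (le_of_eq ?_)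
      rw [hD]; ring
    have hUc : Continuous (fun z => D * E z ^ N) := continuous_const.mul (hEc.pow N)
    have hmah := hM _ hq0 (fun z => D * E z ^ N) hUc.continuousOn
      (fun z _ => mul_pos hDpos (pow_pos (hEpos z) N)) hU
    have hav : Real.circleAverage (fun z => Real.log (D * E z ^ N)) 0 1 =
        Real.log D + N / 2 * I := by
      have e1 : (fun z => Real.log (D * E z ^ N)) =
          fun z => Real.log D + (N / 2 : ℝ) • Real.log (W z) := by
        funext z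
        rw [Real.log_mul hDpos.ne' (pow_pos (hEpos z) N).ne', Real.log_pow]
        simp only [hE]
        rw [Real.log_sqrt (hW0 z), smul_eq_mul]
        ring
      rw [e1, Real.circleAverage_fun_add (f₁ := fun _ => Real.log D)
        (f₂ := fun z => (N / 2 : ℝ) • Real.log (W z)) (circleIntegrable_const _ _ _)
        ((hWlogc.const_smul (N / 2 : ℝ)).continuousOn.circleIntegrable (by norm_num)),
        Real.circleAverage_const, Real.circleAverage_fun_smul, smul_eq_mul]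
    rw [hav] at hmah
    refine hmah.trans ?_
    push_cast
    have : Real.log D ≤ ε * N + L * k := hN0 N hN
    rw [hε] at this
    nlinarith [this]
  -- finitely many values
  intro hfin
  choose! α p hα1 hα2 hα3 hα4 using hex
  have hinf : (Set.Ici N0).Infinite := Set.Ici_infinite N0
  have hmap : Set.MapsTo (fun N => zzHeight (α N)) (Set.Ici N0)
      {x : ℝ | x ≤ L ∧ ∃ α : ℂ, IsAlgebraic ℚ α ∧ zzHeight α = x} := by
    intro N hN
    exact ⟨hα2 N hN, α N, hα1 N hN, rfl⟩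
  obtain ⟨v, hv, hvinf⟩ : ∃ v ∈ {x : ℝ | x ≤ L ∧ ∃ α : ℂ, IsAlgebraic ℚ α ∧ zzHeight α = x},
      {N | N0 ≤ N ∧ zzHeight (α N) = v}.Infinite := by
    by_contra hcon
    push Not at hcon
    apply hinf
    refine (hfin.biUnion fun v hv => hcon v hv).subset ?_
    intro N hN
    simp only [Set.mem_iUnion]
    exact ⟨_, hmap hN, hN, rfl⟩
  refine no_inf (T := (fun N => k * (N + 1)) '' {N | N0 ≤ N ∧ zzHeight (α N) = v}) ?_ ?_ v ?_
  · refine hvinf.image ?_
    intro x _ y _ hxy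
    have := Nat.eq_of_mul_eq_mul_left hk hxy
    omega
  · rintro n ⟨N, _, rfl⟩
    exact Nat.mul_pos hk (Nat.succ_pos N)
  · rintro n ⟨N, ⟨hN, hNv⟩, rfl⟩
    refine ⟨p N, hα3 N hN, ?_⟩
    have := hα4 N hN
    rw [hNv] at this
    exact this

/-- the theorem from a successful check; the proof is that of `Pool.H1.ZU.final` -/
theorem finalV (n w u k P a b c uA uC ug e0 v : ℕ) (es g : List ℕ) (L : ℝ) (hk : 0 < k)
    (habc : a + b + 4 * c ≤ k) (hg : chkG P ug k g = true)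
    (hr : runAll n w u k P a b c uA uC ug e0 v es g = true)
    (hL : (e0 + bnd v es - 2 * P) * Real.log 2 < 2 * L * k) :
    Set.Infinite {x : ℝ | x ≤ L ∧ ∃ α : ℂ, IsAlgebraic ℚ α ∧ zzHeight α = x} := by
  obtain ⟨g1, g2, g3, g4, g5, g6⟩ := chkG_spec P ug k g hg
  have hQ : 0 < 2 ^ P := by positivity
  obtain ⟨q1, q2, q3, q4, q5, q6⟩ := Pool.H2.ZU.gd (sg (2 ^ ug) g) k (2 ^ P) hQ
    (by rw [sg_length, g1]) g3 g4 g5 g6
  set G := Pool.H2.ZU.gp (2 ^ P) (sg (2 ^ ug) g) with hG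
  have hQr : (0 : ℝ) < 2 ^ P := by positivity
  have hs : ∀ z : ℂ, evL (sL P a b c) z = 2 ^ P * ev (ri (X ^ a * (X - 1) ^ b * N10 ^ c)) z := by
    intro z
    rw [Pool.Agent.H14.ZU.ev_ri, evL_sL]
    simp only [map_mul, map_pow, map_sub, aeval_X, map_one, N10, map_add, map_ofNat]
    ring
  have hsn : ∀ z : ℂ, ‖evL (sL P a b c) z‖ ^ 2 =
      (2 ^ P) ^ 2 * ‖ev (ri (X ^ a * (X - 1) ^ b * N10 ^ c)) z‖ ^ 2 := by
    intro z
    rw [hs, norm_mul, mul_pow, norm_pow]; norm_num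
  have hgn : ∀ z : ℂ, ‖evL (sg (2 ^ ug) g) (z - z ^ 2)‖ ^ 2 = (2 ^ P) ^ 2 * ‖ev G z‖ ^ 2 := by
    intro z
    rw [q6 z, norm_div, div_pow]
    have : ‖((2 ^ P : ℕ) : ℂ)‖ = 2 ^ P := by
      rw [Complex.norm_natCast]; push_cast; rfl
    rw [this]
    field_simp
  have hpos0 : ∀ z : ℂ, 0 < ‖ev (ri (X ^ a * (X - 1) ^ b * N10 ^ c)) z‖ ^ 2 + ‖ev G z‖ ^ 2 := by
    intro z
    by_contra hcon
    have h1 : ‖ev (ri (X ^ a * (X - 1) ^ b * N10 ^ c)) z‖ ^ 2 = 0 := by
      nlinarith [sq_nonneg ‖ev (ri (X ^ a * (X - 1) ^ b * N10 ^ c)) z‖, sq_nonneg ‖ev G z‖]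
    have h2 : ‖ev G z‖ ^ 2 = 0 := by
      nlinarith [sq_nonneg ‖ev (ri (X ^ a * (X - 1) ^ b * N10 ^ c)) z‖, sq_nonneg ‖ev G z‖]
    exact Pool.Agent.H14.ZU.no_common (a := a) (b := b) (c := c) q3 q4 q5 z
      (norm_eq_zero.mp (pow_eq_zero_iff (two_ne_zero) |>.mp h1))
      (norm_eq_zero.mp (pow_eq_zero_iff (two_ne_zero) |>.mp h2))
  have hpos : ∀ z : ℂ, ‖z‖ = 1 → 0 < ‖evL (sL P a b c) z‖ ^ 2 +
      ‖evL (sg (2 ^ ug) g) (z - z ^ 2)‖ ^ 2 := by
    intro z _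
    rw [hsn, hgn, ← mul_add]
    exact mul_pos (by positivity) (hpos0 z)
  have hrun := runAll_spec n w u k P a b c uA uC ug e0 v es g g1 g2 hpos hr
  have hlog : ∀ z : ℂ, Real.log (‖evL (sL P a b c) z‖ ^ 2 +
      ‖evL (sg (2 ^ ug) g) (z - z ^ 2)‖ ^ 2) = 2 * P * Real.log 2 +
      Real.log (‖ev (ri (X ^ a * (X - 1) ^ b * N10 ^ c)) z‖ ^ 2 + ‖ev G z‖ ^ 2) := by
    intro z
    rw [hsn, hgn, ← mul_add, Real.log_mul (by positivity) (hpos0 z).ne', ← pow_mul, Real.log_pow]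
    push_cast; ring
  have hci : CircleIntegrable (fun z => Real.log (‖ev (ri (X ^ a * (X - 1) ^ b * N10 ^ c)) z‖ ^ 2 +
      ‖ev G z‖ ^ 2)) 0 1 := by
    refine ContinuousOn.circleIntegrable' (Continuous.continuousOn ?_)
    refine Continuous.log ?_ (fun z => (hpos0 z).ne')
    exact ((Pool.Agent.H14.ZU.ev_cont _).norm.pow 2).add ((Pool.Agent.H14.ZU.ev_cont _).norm.pow 2)
  have hca := Real.circleAverage_add (c := (0 : ℂ)) (R := 1)
    (f₁ := fun _ : ℂ => (2 * P * Real.log 2 : ℝ))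
    (f₂ := fun z => Real.log (‖ev (ri (X ^ a * (X - 1) ^ b * N10 ^ c)) z‖ ^ 2 + ‖ev G z‖ ^ 2))
    (circleIntegrable_const _ _ _) hci
  rw [Real.circleAverage_const] at hca
  simp only [hlog] at hrun
  have hca' : Real.circleAverage (fun z => 2 * P * Real.log 2 +
      Real.log (‖ev (ri (X ^ a * (X - 1) ^ b * N10 ^ c)) z‖ ^ 2 + ‖ev G z‖ ^ 2)) 0 1 = _ := hca
  rw [hca'] at hrun
  refine INFV (COV Pool.H2.ZU.RES) Pool.Agent.H14.ZU.MAH a b c k hk habc G q1 q2 q3 q4 q5 L ?_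
  linarith

end H38.ZV
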