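import Pool.Agent.H38.ZV.Emb

/-!
# One value of the height serves only finitely many degrees: the argument
-/

open Polynomial

namespace H38.ZV

theorem i2_norm_gg {n : ℕ} (hn : 0 < n) {p : ℤ[X]} (hp : Good n p) {r : ℝ} (hr : 0 ≤ r)
    (hr2 : r ^ (2 * n) = 2) {ζ : KQ} (hζ : aeval ζ p = 0) :
    ‖i2 (gg ζ)‖ = if 1 < ‖iC ζ‖ then r ^ 2 else 1 := by
  have h1 : ∀ ξ : KQ, aeval ξ p = 0 → ‖i2 ξ‖ = r := by
    intro ξ hξ
    have h := root_norm hn hp (ζ := i2 ξ) (by rw [aeval_i2, hξ, map_zero])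
    exact (pow_left_inj₀ (norm_nonneg _) hr (by omega : 2 * n ≠ 0)).1 (by rw [h, hr2])
  unfold gg
  split_ifs with h
  · rw [map_mul, norm_mul, h1 ζ hζ, h1 _ (aeval_cc hζ), pow_two]
  · rw [map_one, norm_one]

theorem prod_norm {n : ℕ} (hn : 0 < n) {p : ℤ[X]} (hp : Good n p) {r : ℝ} (hr : 1 < r)
    (hr2 : r ^ (2 * n) = 2) (s : Multiset KQ) (hs : ∀ ζ ∈ s, aeval ζ p = 0) :
    1 ≤ ‖i2 ((s.map gg).prod)‖ ∧ ‖i2 ((s.map gg).prod)‖ ≤ r ^ (2 * s.card) ∧
    ((r ^ (2 * s.card) ≤ ‖i2 ((s.map gg).prod)‖) → ∀ ζ ∈ s, 1 < ‖iC ζ‖) := by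
  induction s using Multiset.induction_on with
  | empty => simp
  | cons a s ih =>
    obtain ⟨h1, h2, h3⟩ := ih fun ζ hζ => hs ζ (Multiset.mem_cons_of_mem hζ)
    have h4 := i2_norm_gg hn hp (by linarith : 0 ≤ r) hr2 (hs a (Multiset.mem_cons_self a s))
    rw [Multiset.map_cons, Multiset.prod_cons, map_mul, norm_mul, h4, Multiset.card_cons]
    have e : r ^ (2 * (s.card + 1)) = r ^ 2 * r ^ (2 * s.card) := by
      rw [← pow_add]; congr 1; ring
    have hr1 : 1 < r ^ 2 := one_lt_pow₀ hr two_ne_zero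
    have hrp : 0 < r ^ (2 * s.card) := by positivity
    rw [e]
    split_ifs with h
    · refine ⟨by nlinarith, mul_le_mul_of_nonneg_left h2 (by positivity), fun h5 ζ hζ => ?_⟩
      rcases Multiset.mem_cons.1 hζ with rfl | hζ
      · exact h
      · exact h3 (le_of_mul_le_mul_left h5 (by positivity)) ζ hζ
    · refine ⟨by linarith, by nlinarith, fun h5 => ?_⟩
      exfalso
      nlinarith

/-- the two facts for one polynomial -/
theorem key {n : ℕ} (hn : 0 < n) {p : ℤ[X]} (hp : Good n p) {E : ℝ} (e : KQ) (he : iC e = (E : ℂ))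
    (hM : (p.map (Int.castRingHom ℂ)).mahlerMeasure = E ^ n) :
    1 / 4 ≤ ‖i2 e‖ ^ (2 * n) ∧ (1 ≤ ‖i2 e‖ → E ^ n = |(p.coeff 0 : ℝ)|) := by
  have hp0 : p ≠ 0 := by
    intro h
    have := hp.lead
    rw [h] at this
    simp at this
  have hlc : p.leadingCoeff = p.coeff (2 * n) := by rw [leadingCoeff, hp.deg]
  set R : Multiset KQ := (p.map (Int.castRingHom KQ)).roots with hR
  have hroot : ∀ ζ ∈ R, aeval ζ p = 0 := fun ζ hζ => roots_root hζ
  have hsp : (p.map (Int.castRingHom KQ)).Splits := IsAlgClosed.splits _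
  have hcard : R.card = 2 * n := by
    have := hsp.natDegree_eq_card_roots
    rw [natDegree_map_eq_of_injective (RingHom.injective_int _), hp.deg] at this
    exact this.symm
  -- the absolute value of the roots
  obtain ⟨ζ0, hζ0⟩ : ∃ ζ, ζ ∈ R := by
    rw [← Multiset.card_pos_iff_exists_mem, hcard]
    omega
  have hr2 : ‖i2 ζ0‖ ^ (2 * n) = 2 :=
    root_norm hn hp (by rw [aeval_i2, hroot ζ0 hζ0, map_zero])
  obtain ⟨r, hrdef⟩ : ∃ r, r = ‖i2 ζ0‖ := ⟨_, rfl⟩
  rw [← hrdef] at hr2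
  have hr0 : 0 ≤ r := by rw [hrdef]; exact norm_nonneg _
  have hr : 1 < r := by
    by_contra h
    have := pow_le_one₀ (n := 2 * n) hr0 (not_lt.1 h)
    rw [hr2] at this
    norm_num at this
  obtain ⟨h1, h2, h3⟩ := prod_norm hn hp hr hr2 R hroot
  -- the equation for `e`
  have hsq := mahler_sq p
  rw [hM] at hsq
  have hee : e ^ (2 * n) = (p.leadingCoeff : KQ) ^ 2 * (R.map gg).prod := by
    have hinj : Function.Injective iC := iC.toRingHom.injective
    apply hinj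
    rw [hR, ← hsq, map_pow, he]
    push_cast
    rw [← pow_mul, mul_comm 2 n]
  have hnorm : ‖i2 e‖ ^ (2 * n) = 1 / 4 * ‖i2 ((R.map gg).prod)‖ := by
    rw [← norm_pow, ← map_pow, hee, map_mul, norm_mul, map_pow, norm_pow, map_intCast, hlc,
      norm_lead hp.lead]
    norm_num
  refine ⟨by rw [hnorm]; linarith, fun h4 => ?_⟩
  have h5 : 1 ≤ ‖i2 e‖ ^ (2 * n) := one_le_pow₀ h4
  have h6 : r ^ (2 * R.card) ≤ ‖i2 ((R.map gg).prod)‖ := by
    have e2 : r ^ (2 * R.card) = 4 := by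
      rw [hcard, mul_comm 2 (2 * n), pow_mul, hr2]; norm_num
    rw [e2]
    rw [hnorm] at h5
    linarith
  have h7 := h3 h6
  -- all roots are outside of the unit circle
  have hrC : (p.map (Int.castRingHom ℂ)).roots = R.map iC := by
    have h := hsp.roots_map (iC : KQ →+* ℂ)
    rw [Polynomial.map_map] at h
    have e : (iC : KQ →+* ℂ).comp (Int.castRingHom KQ) = Int.castRingHom ℂ :=
      Subsingleton.elim _ _
    rw [e] at h
    exact h
  rw [← hM, mahlerMeasure_eq_leadingCoeff_mul_prod_roots, hrC, Multiset.map_map,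
    leadingCoeff_map_of_injective (RingHom.injective_int _)]
  have hs : (p.map (Int.castRingHom ℂ)).Splits := IsAlgClosed.splits _
  have h8 := congrArg (fun f : ℂ[X] => ‖f.eval 0‖) hs.eq_prod_roots
  rw [eval_mul, eval_C, norm_mul, eval_multiset_prod, hrC, Multiset.map_map, Multiset.map_map,
    leadingCoeff_map_of_injective (RingHom.injective_int _)] at h8
  have h9 : ‖(p.map (Int.castRingHom ℂ)).eval 0‖ = |(p.coeff 0 : ℝ)| := by
    rw [← coeff_zero_eq_eval_zero, coeff_map, eq_intCast, Complex.norm_intCast]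
  rw [h9] at h8
  rw [h8]
  congr 1
  have h10 : ∀ s : Multiset KQ, (∀ ζ ∈ s, 1 < ‖iC ζ‖) →
      (s.map ((fun a : ℂ => max 1 ‖a‖) ∘ iC)).prod =
      ‖(s.map (eval 0 ∘ ((fun a : ℂ => X - C a) ∘ iC))).prod‖ := by
    intro s
    induction s using Multiset.induction_on with
    | empty => intro _; simp
    | cons a s ih =>
      intro h
      rw [Multiset.map_cons, Multiset.prod_cons, Multiset.map_cons, Multiset.prod_cons, norm_mul,
        ih fun ζ hζ => h ζ (Multiset.mem_cons_of_mem hζ)]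
      congr 1
      simp only [Function.comp_apply, eval_sub, eval_X, eval_C, zero_sub, norm_neg]
      exact max_eq_right (h a (Multiset.mem_cons_self a s)).le
  exact h10 R h7

/-- one value cannot serve infinitely many degrees -/
theorem no_inf {T : Set ℕ} (hT : T.Infinite) (hT0 : ∀ n ∈ T, 0 < n) (v : ℝ)
    (h : ∀ n ∈ T, ∃ p : ℤ[X], Good n p ∧
      (p.map (Int.castRingHom ℂ)).mahlerMeasure = Real.exp (n * v)) : False := by
  obtain ⟨E, hE⟩ : ∃ E : ℝ, E = Real.exp v := ⟨_, rfl⟩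
  have hEp : 0 < E := by rw [hE]; exact Real.exp_pos v
  have hpow : ∀ n : ℕ, Real.exp (n * v) = E ^ n := by
    intro n; rw [hE, ← Real.exp_nat_mul]
  simp only [hpow] at h
  obtain ⟨n0, hn0⟩ := hT.nonempty
  obtain ⟨e, he⟩ : ∃ e : KQ, iC e = (E : ℂ) := by
    obtain ⟨p, hp, hM⟩ := h n0 hn0
    apply range_iC
    have hsq := mahler_sq p
    rw [hM] at hsq
    refine IsAlgebraic.of_pow (n := 2 * n0) (by have := hT0 n0 hn0; omega) ?_
    have e1 : (E : ℂ) ^ (2 * n0) = (((E ^ n0) ^ 2 : ℝ) : ℂ) := by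
      push_cast
      rw [← pow_mul, mul_comm 2 n0]
    rw [e1, hsq]
    exact (Algebra.IsAlgebraic.isAlgebraic (R := ℚ) (A := KQ) _).algHom iC
  -- the `2`-adic absolute value of `e` is at least `1`
  have h1 : 1 ≤ ‖i2 e‖ := by
    by_contra hlt
    have h2 : Filter.Tendsto (fun n : ℕ => ‖i2 e‖ ^ (2 * n)) Filter.atTop (nhds 0) := by
      have h3 := tendsto_pow_atTop_nhds_zero_of_lt_one (r := ‖i2 e‖ ^ 2) (by positivity)
        (pow_lt_one₀ (norm_nonneg _) (not_le.1 hlt) two_ne_zero)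
      simpa [pow_mul] using h3
    have h4 := (h2.eventually (gt_mem_nhds (by norm_num : (0 : ℝ) < 1 / 4)))
    obtain ⟨N, hN⟩ := Filter.eventually_atTop.1 h4
    obtain ⟨n, hn, hnN⟩ := hT.exists_gt N
    obtain ⟨p, hp, hM⟩ := h n hn
    have h5 := (key (hT0 n hn) hp e he hM).1
    have h6 := hN n hnN.le
    linarith
  obtain ⟨n1, hn1, hlt⟩ := hT.exists_gt n0
  obtain ⟨p, hp, hM⟩ := h n0 hn0
  obtain ⟨q, hq, hMq⟩ := h n1 hn1
  have a1 := (key (hT0 n0 hn0) hp e he hM).2 h1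
  have a2 := (key (hT0 n1 hn1) hq e he hMq).2 h1
  have a3 : |(p.coeff 0 : ℝ)| ^ n1 = |(q.coeff 0 : ℝ)| ^ n0 := by
    rw [← a1, ← a2, ← pow_mul, ← pow_mul, mul_comm]
  have a4 : (p.coeff 0).natAbs ^ n1 = (q.coeff 0).natAbs ^ n0 := by
    have : (((p.coeff 0).natAbs ^ n1 : ℕ) : ℝ) = (((q.coeff 0).natAbs ^ n0 : ℕ) : ℝ) := by
      push_cast
      rw [Nat.cast_natAbs, Nat.cast_natAbs]
      push_cast
      exact a3
    exact_mod_cast this
  have hv : ∀ {m : ℕ} {f : ℤ[X]}, Good m f → padicValNat 3 (f.coeff 0).natAbs = 1 := by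
    intro m f hf
    have : Fact (Nat.Prime 3) := ⟨Nat.prime_three⟩
    have h3 := hf.three
    have h9 := hf.nine
    have hne : (f.coeff 0).natAbs ≠ 0 := by
      intro h0
      have := hf.odd
      omega
    have d1 : 3 ^ 1 ∣ (f.coeff 0).natAbs := by omega
    have d2 : ¬ 3 ^ 2 ∣ (f.coeff 0).natAbs := by omega
    have u1 := (padicValNat_dvd_iff_le hne).1 d1
    have u2 : ¬ 2 ≤ padicValNat 3 (f.coeff 0).natAbs := fun hh =>
      d2 ((padicValNat_dvd_iff_le hne).2 hh)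
    omega
  have : Fact (Nat.Prime 3) := ⟨Nat.prime_three⟩
  have a5 := congrArg (padicValNat 3) a4
  rw [padicValNat.pow, padicValNat.pow, hv hp, hv hq] at a5
  omega

end H38.ZV
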