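import Mathlib

/-!
# Integer polynomials which are Eisenstein at `2` from above

`Good n p`: degree `2 n`, leading coefficient `2 mod 4`, the constant coefficient odd and exactly
divisible by `3`, all other coefficients even. All the `2`-adic absolute values of the roots are
`2 ^ (1 / 2n)`.
-/

open Polynomial

namespace H38.ZV

/-- the congruence conditions -/
structure Good (n : ℕ) (p : ℤ[X]) : Prop where
  deg : p.natDegree = 2 * n
  lead : p.coeff (2 * n) % 4 = 2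
  odd : p.coeff 0 % 2 = 1
  even : ∀ i, 0 < i → 2 ∣ p.coeff i
  three : 3 ∣ p.coeff 0
  nine : ¬ 9 ∣ p.coeff 0

instance fact2 : Fact (Nat.Prime 2) := ⟨Nat.prime_two⟩

/-- the algebraic closure of the `2`-adic numbers -/
abbrev K2 : Type := PadicAlgCl 2

theorem norm_int (a : ℤ) : ‖(a : K2)‖ = ‖(a : ℚ_[2])‖ := by
  have h := PadicAlgCl.norm_extends 2 (a : ℚ_[2])
  rw [← h]
  simp

theorem norm_le_one (a : ℤ) : ‖(a : K2)‖ ≤ 1 := by
  rw [norm_int]
  exact Padic.norm_int_le_one a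

theorem norm_two : ‖(2 : K2)‖ = 1 / 2 := by
  have h := norm_int 2
  push_cast at h
  rw [h]
  have h2 := Padic.norm_p (p := 2)
  push_cast at h2
  rw [h2]
  norm_num

theorem norm_odd {a : ℤ} (h : a % 2 = 1) : ‖(a : K2)‖ = 1 := by
  refine le_antisymm (norm_le_one a) ?_
  rw [norm_int]
  by_contra hlt
  rw [not_le, Padic.norm_intCast_lt_one_iff] at hlt
  push_cast at hlt
  omega

theorem norm_even {a : ℤ} (h : 2 ∣ a) : ‖(a : K2)‖ ≤ 1 / 2 := by
  obtain ⟨b, rfl⟩ := h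
  push_cast
  rw [norm_mul, norm_two]
  have := norm_le_one b
  nlinarith [norm_nonneg (b : K2)]

theorem norm_lead {a : ℤ} (h : a % 4 = 2) : ‖(a : K2)‖ = 1 / 2 := by
  obtain ⟨b, rfl⟩ : (2 : ℤ) ∣ a := by omega
  push_cast
  rw [norm_mul, norm_two, norm_odd (by omega)]
  norm_num

/-- all roots have the same absolute value -/
theorem root_norm {n : ℕ} (hn : 0 < n) {p : ℤ[X]} (hp : Good n p) {ζ : K2} (hζ : aeval ζ p = 0) :
    ‖ζ‖ ^ (2 * n) = 2 := by
  obtain ⟨m, hm⟩ : ∃ m, 2 * n = m + 1 := ⟨2 * n - 1, by omega⟩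
  have hsum : aeval ζ p = ∑ i ∈ Finset.range (m + 1 + 1), (p.coeff i : K2) * ζ ^ i := by
    rw [aeval_eq_sum_range, hp.deg, hm]
    refine Finset.sum_congr rfl fun i _ => ?_
    rw [zsmul_eq_mul]
  have hl := norm_lead hp.lead
  have h0 := norm_odd hp.odd
  rw [hm] at hl ⊢
  rw [hsum, Finset.sum_range_succ, Finset.sum_range_succ'] at hζ
  have hs : ∀ B : ℝ, 0 ≤ B → (∀ i < m, ‖ζ‖ ^ (i + 1) ≤ B) →
      ‖∑ i ∈ Finset.range m, (p.coeff (i + 1) : K2) * ζ ^ (i + 1)‖ ≤ 1 / 2 * B := by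
    intro B hB hi
    refine IsUltrametricDist.norm_sum_le_of_forall_le_of_nonneg (by positivity) fun i hi' => ?_
    rw [norm_mul, norm_pow]
    exact mul_le_mul (norm_even (hp.even _ (Nat.succ_pos _))) (hi i (Finset.mem_range.1 hi'))
      (by positivity) (by norm_num)
  set s : K2 := ∑ i ∈ Finset.range m, (p.coeff (i + 1) : K2) * ζ ^ (i + 1) with hsdef
  set T : K2 := (p.coeff (m + 1) : K2) * ζ ^ (m + 1) with hT
  rw [pow_zero, mul_one] at hζ
  have hTn : ‖T‖ = 1 / 2 * ‖ζ‖ ^ (m + 1) := by rw [hT, norm_mul, norm_pow, hl]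
  rcases le_or_gt ‖ζ‖ 1 with hx | hx
  · exfalso
    have h1 : ‖s‖ ≤ 1 / 2 * 1 := hs 1 zero_le_one fun i _ => pow_le_one₀ (norm_nonneg _) hx
    have h2 : ‖T‖ ≤ 1 / 2 * 1 := by
      rw [hTn]
      exact mul_le_mul_of_nonneg_left (pow_le_one₀ (norm_nonneg _) hx) (by norm_num)
    have h3 : (p.coeff 0 : K2) = -(s + T) := by linear_combination hζ
    have h4 : ‖(p.coeff 0 : K2)‖ ≤ max ‖s‖ ‖T‖ := by
      rw [h3, norm_neg]
      exact IsUltrametricDist.norm_add_le_max _ _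
    rw [h0] at h4
    have h5 := max_le h1 h2
    linarith
  · by_contra hne
    have h1 : ‖s‖ ≤ 1 / 2 * ‖ζ‖ ^ m := hs (‖ζ‖ ^ m) (by positivity) fun i hi =>
      pow_le_pow_right₀ hx.le (by omega)
    have h2 : ‖(p.coeff 0 : K2)‖ ≠ ‖T‖ := by
      rw [h0, hTn]
      intro h
      apply hne
      linarith
    have h3 := IsUltrametricDist.norm_add_eq_max_of_norm_ne_norm h2
    have h4 : (p.coeff 0 : K2) + T = -s := by linear_combination hζ
    rw [h4, norm_neg] at h3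
    have h5 : ‖T‖ ≤ ‖s‖ := by rw [h3]; exact le_max_right _ _
    have h6 : 0 < ‖ζ‖ ^ m := by positivity
    rw [hTn, pow_succ] at h5
    nlinarith

end H38.ZV
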